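import Pool.Agent.H256R2.SC.G1

set_option autoImplicit false

/-! # The analysis of the parameters -/

namespace Pool.Agent.TH621.RP

open Filter

/-- Rankin's function -/
noncomputable def rankin (Y : ℝ) : ℝ :=
  Real.log Y * Real.log (Real.log Y) * Real.log (Real.log (Real.log (Real.log Y))) /
    (Real.log (Real.log (Real.log Y))) ^ 2

open Pool.Agent.H256R2.SC.LG in
theorem anaR {C x₀ : ℝ} (hC : 0 < C) : ∃ c' : ℝ, 0 < c' ∧ ∃ Y₀ : ℝ, ∀ Y : ℝ, Y₀ ≤ Y →
    ∀ x F : ℝ, x = Real.log Y / 10 → F = c' * rankin Y → ∀ T : ℕ, T = ⌊F⌋₊ →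
    100 ≤ Real.log Y ∧ 1 ≤ Y ∧ 1 ≤ Real.log x ∧ Real.log x ≤ Real.log (Real.log Y) ∧ x₀ ≤ x ∧
      1 ≤ x ∧ x ≤ T ∧ (T : ℝ) ≤ x * Real.log x ∧
      C * (T * (Real.log (Real.log x)) ^ 2 / (Real.log x * Real.log (Real.log (Real.log x)))) ≤
        Real.log Y / 20 ∧ F ≤ (Real.log Y) ^ 2 ∧ 0 ≤ F := by
  refine ⟨1 / (80 * C), by positivity, ?_⟩
  set c' : ℝ := 1 / (80 * C) with hc'
  have hc'0 : 0 < c' := by positivity
  obtain ⟨Y₀, hY₀⟩ := ev_log (max (max 100 (20 * c')) (max (10 * x₀) (4 / c')))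
  refine ⟨Y₀, fun X hX y F hy hF L hL => ?_⟩
  obtain ⟨hX1, m1, m2, m3, m4⟩ := hY₀ X hX
  set M : ℝ := max (max 100 (20 * c')) (max (10 * x₀) (4 / c')) with hM
  have M1 : 100 ≤ M := (le_max_left _ _).trans (le_max_left _ _)
  have M2 : 20 * c' ≤ M := (le_max_right _ _).trans (le_max_left _ _)
  have M3 : 10 * x₀ ≤ M := (le_max_left _ _).trans (le_max_right _ _)
  have M4 : 4 / c' ≤ M := (le_max_right _ _).trans (le_max_right _ _)
  set l1 := Real.log X with hl1
  set l2 := Real.log l1 with hl2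
  set l3 := Real.log l2 with hl3
  set l4 := Real.log l3 with hl4
  have p1 : 0 < l1 := by linarith
  have p2 : 0 < l2 := by linarith
  have p3 : 0 < l3 := by linarith
  have p4 : 0 < l4 := by linarith
  have hlog10 := log10_lt
  -- logs of y
  have y1 : l2 / 2 ≤ Real.log y := half_log (by rw [hy]) (by linarith) p1
  have y2 : l3 / 2 ≤ Real.log (Real.log y) := by
    apply half_log _ (by linarith) p2
    linarith
  have y3 : l4 / 2 ≤ Real.log (Real.log (Real.log y)) := by
    apply half_log _ (by linarith) p3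
    linarith
  have hypos : 0 < y := by rw [hy]; positivity
  have hlogy : 0 < Real.log y := by linarith
  have hloglogy : 0 < Real.log (Real.log y) := by linarith
  have hylog : Real.log y ≤ l2 := by
    apply Real.log_le_log hypos
    rw [hy]
    linarith
  have y2' : Real.log (Real.log y) ≤ l3 := Real.log_le_log hlogy hylog
  have hff : rankin X = l1 * l2 * l4 / l3 ^ 2 := rfl
  have q1 : l3 ^ 2 ≤ 4 * l2 := log_sq_le (by linarith)
  have q2 : l2 ^ 2 ≤ 4 * l1 := log_sq_le (by linarith)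
  have q3 : l4 ≤ l3 := by
    have := Real.log_le_sub_one_of_pos p3
    linarith
  have hF0 : 0 ≤ F := by
    rw [hF, hff]
    positivity
  have hLF : (L : ℝ) ≤ F := by
    rw [hL]
    exact Nat.floor_le hF0
  have hFL : F - 1 ≤ L := by
    rw [hL]
    have := Nat.lt_floor_add_one F
    linarith
  -- lower bound for F
  have F1 : l1 ≤ F := by
    rw [hF, hff]
    have h1 : l1 * l2 * l4 / (4 * l2) ≤ l1 * l2 * l4 / l3 ^ 2 := by
      apply div_le_div_of_nonneg_left (by positivity) (by positivity) q1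
    have h2 : l1 * l2 * l4 / (4 * l2) = l1 * l4 / 4 := by
      field_simp
    have h3 : 4 ≤ c' * M := by
      rw [div_le_iff₀ hc'0] at M4
      linarith
    have h4 : c' * M ≤ c' * l4 := by gcongr
    calc l1 = l1 * 4 / 4 := by ring
      _ ≤ l1 * (c' * l4) / 4 := by
          have : 4 ≤ c' * l4 := h3.trans h4
          gcongr
      _ = c' * (l1 * l4 / 4) := by ring
      _ ≤ c' * (l1 * l2 * l4 / l3 ^ 2) := by
        rw [← h2]
        gcongr
  -- upper bound for F
  have F2 : F ≤ l1 * l2 / 20 := by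
    rw [hF, hff]
    have h1 : l4 / l3 ^ 2 ≤ 1 / M := by
      rw [div_le_div_iff₀ (by positivity) (by linarith)]
      nlinarith
    have h2 : c' * (1 / M) ≤ 1 / 20 := by
      rw [mul_one_div, div_le_div_iff₀ (by linarith) (by norm_num)]
      linarith
    calc c' * (l1 * l2 * l4 / l3 ^ 2) = l1 * l2 * (c' * (l4 / l3 ^ 2)) := by ring
      _ ≤ l1 * l2 * (c' * (1 / M)) := by gcongr
      _ ≤ l1 * l2 * (1 / 20) := by gcongr
      _ = _ := by ring
  have hl21 : l2 ≤ l1 := by
    have := Real.log_le_sub_one_of_pos p1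
    linarith
  refine ⟨by linarith, hX1, by linarith, hylog, ?_, ?_, ?_, ?_, ?_, ?_, hF0⟩
  · rw [hy]
    linarith
  · rw [hy]
    linarith
  · rw [hy]
    linarith
  · refine hLF.trans (F2.trans ?_)
    calc l1 * l2 / 20 = l1 / 10 * (l2 / 2) := by ring
      _ ≤ l1 / 10 * Real.log y := by gcongr
      _ = y * Real.log y := by rw [hy]
  · have h1 : C * (L * (Real.log (Real.log y)) ^ 2 /
        (Real.log y * Real.log (Real.log (Real.log y)))) ≤
        C * (F * l3 ^ 2 / ((l2 / 2) * (l4 / 2))) := by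
      gcongr
    refine h1.trans ?_
    rw [hF, hff]
    have h2 : C * ((c' * (l1 * l2 * l4 / l3 ^ 2)) * l3 ^ 2 / ((l2 / 2) * (l4 / 2))) =
        4 * C * c' * l1 := by
      field_simp
      ring
    rw [h2, hc']
    have h3 : 4 * C * (1 / (80 * C)) * l1 = l1 / 20 := by
      field_simp
      ring
    rw [h3]
  · refine F2.trans ?_
    nlinarith

/-- largeness at the end -/
theorem ev_end (A : ℕ) (B : ℝ) : ∃ L₀ : ℝ, ∀ L : ℝ, L₀ ≤ L →
    L ^ A + B + L ^ 2 < Real.exp L / 16 := by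
  have h1 : ∀ n : ℕ, ∀ᶠ L : ℝ in atTop, L ^ n ≤ Real.exp L / 64 := by
    intro n
    have e1 := (Real.isLittleO_pow_exp_atTop (n := n)).def (show (0 : ℝ) < 1 / 64 by norm_num)
    filter_upwards [e1, eventually_ge_atTop (0 : ℝ)] with L hL hL2
    rw [Real.norm_eq_abs, Real.norm_eq_abs, abs_of_nonneg (by positivity),
      abs_of_pos (Real.exp_pos _)] at hL
    linarith
  have h2 : ∀ᶠ L : ℝ in atTop, B ≤ Real.exp L / 64 := by
    filter_upwards [eventually_ge_atTop (64 * B)] with L hL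
    have := Real.add_one_le_exp L
    linarith
  obtain ⟨L₁, h⟩ := eventually_atTop.1 ((h1 A).and ((h1 2).and h2))
  refine ⟨L₁, fun L hL => ?_⟩
  obtain ⟨a1, a2, a3⟩ := h L hL
  have := Real.exp_pos L
  linarith

end Pool.Agent.TH621.RP
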