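import Pool.Agent.TH621.RP.Mom

set_option autoImplicit false

/-! # Choice of residues -/

namespace Pool.Agent.TH621.RP

open Finset Polynomial

open scoped Classical

/-- averaging over residues modulo one prime -/
theorem one_prime {ι : Type} (C : Finset ι) (w : ι → ℝ) (p : ℕ) (hp : 0 < p)
    (R : ι → Finset ℕ) (hR : ∀ c, R c ⊆ range p) :
    ∃ r ∈ range p, ∑ c ∈ C, (if r ∈ R c then 0 else w c) ≤
      ∑ c ∈ C, w c * (1 - ((R c).card : ℝ) / p) := by
  have hp0 : (0 : ℝ) < p := by exact_mod_cast hp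
  have h1 : ∑ r ∈ range p, ∑ c ∈ C, (if r ∈ R c then 0 else w c) =
      p * ∑ c ∈ C, w c * (1 - ((R c).card : ℝ) / p) := by
    rw [sum_comm, mul_sum]
    refine sum_congr rfl fun c _ => ?_
    have e1 : ∀ r ∈ range p, (if r ∈ R c then (0 : ℝ) else w c) =
        w c - (if r ∈ R c then w c else 0) := by
      intro r _
      split_ifs <;> simp
    rw [sum_congr rfl e1, sum_sub_distrib, sum_const, card_range, nsmul_eq_mul, ← sum_filter,
      sum_const, nsmul_eq_mul]
    have e2 : (range p).filter (fun r => r ∈ R c) = R c := by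
      ext r
      rw [mem_filter]
      exact ⟨fun h => h.2, fun h => ⟨hR c h, h⟩⟩
    rw [e2]
    field_simp
  have h2 : ∑ r ∈ range p, ∑ c ∈ C, (if r ∈ R c then 0 else w c) ≤
      ∑ _r ∈ range p, ∑ c ∈ C, w c * (1 - ((R c).card : ℝ) / p) := by
    rw [h1, sum_const, card_range, nsmul_eq_mul]
  exact exists_le_of_sum_le ⟨0, mem_range.mpr hp⟩ h2

/-- a good choice of residues -/
theorem choice {ι : Type} (𝓜 : Finset ℕ) (h𝓜 : ∀ p ∈ 𝓜, 0 < p) (R : ι → ℕ → Finset ℕ)
    (hR : ∀ c p, R c p ⊆ range p) (C : Finset ι) : ∀ w : ι → ℝ, (∀ c, 0 ≤ w c) →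
    ∃ r : ℕ → ℕ, ∑ c ∈ C.filter (fun c => ∀ p ∈ 𝓜, r p ∉ R c p), w c ≤
      ∑ c ∈ C, w c * ∏ p ∈ 𝓜, (1 - ((R c p).card : ℝ) / p) := by
  induction 𝓜 using Finset.induction_on with
  | empty =>
    intro w _
    exact ⟨fun _ => 0, by simp⟩
  | insert q 𝓜 hq ih =>
    intro w hw
    have hq0 : 0 < q := h𝓜 q (mem_insert_self _ _)
    have hprod : ∀ c, 0 ≤ ∏ p ∈ 𝓜, (1 - ((R c p).card : ℝ) / p) := by
      intro c
      refine prod_nonneg fun p hp => ?_
      have hp0 : (0 : ℝ) < p := by exact_mod_cast h𝓜 p (mem_insert_of_mem hp)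
      have : ((R c p).card : ℝ) ≤ p := by
        have := card_le_card (hR c p)
        rw [card_range] at this
        exact_mod_cast this
      rw [sub_nonneg, div_le_one hp0]
      exact this
    obtain ⟨s, -, hs⟩ := one_prime C (fun c => w c * ∏ p ∈ 𝓜, (1 - ((R c p).card : ℝ) / p)) q hq0
      (fun c => R c q) (fun c => hR c q)
    obtain ⟨r, hr⟩ := ih (fun p hp => h𝓜 p (mem_insert_of_mem hp))
      (fun c => if s ∈ R c q then 0 else w c) (fun c => by split_ifs; exacts [le_rfl, hw c])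
    refine ⟨Function.update r q s, ?_⟩
    have e1 : ∑ c ∈ C.filter (fun c => ∀ p ∈ insert q 𝓜, Function.update r q s p ∉ R c p), w c ≤
        ∑ c ∈ C.filter (fun c => ∀ p ∈ 𝓜, r p ∉ R c p), (if s ∈ R c q then 0 else w c) := by
      have e2 : ∑ c ∈ C.filter (fun c => ∀ p ∈ insert q 𝓜, Function.update r q s p ∉ R c p), w c =
          ∑ c ∈ C.filter (fun c => ∀ p ∈ insert q 𝓜, Function.update r q s p ∉ R c p),
            (if s ∈ R c q then 0 else w c) := by
        refine sum_congr rfl fun c hc => ?_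
        have := (mem_filter.mp hc).2 q (mem_insert_self _ _)
        rw [Function.update_self] at this
        rw [if_neg this]
      rw [e2]
      apply sum_le_sum_of_subset_of_nonneg
      · intro c hc
        rw [mem_filter] at hc ⊢
        refine ⟨hc.1, fun p hp => ?_⟩
        have h3 := hc.2 p (mem_insert_of_mem hp)
        rwa [Function.update_of_ne (by rintro rfl; exact hq hp)] at h3
      · intro c _ _
        split_ifs
        exacts [le_rfl, hw c]
    refine e1.trans (hr.trans ?_)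
    refine le_trans (le_of_eq ?_) (hs.trans (le_of_eq ?_))
    · refine sum_congr rfl fun c _ => ?_
      split_ifs <;> simp
    · refine sum_congr rfl fun c _ => ?_
      rw [prod_insert hq]
      ring

/-- bound for a product -/
theorem prod_le_exp (f : ℤ[X]) (k : ℤ) (𝓜 : Finset ℕ) (h𝓜 : ∀ p ∈ 𝓜, 0 < p)
    (hS : -1 ≤ SS f 𝓜 k) :
    ∏ p ∈ 𝓜, (1 - ((RR f k p).card : ℝ) / p) ≤ Real.exp (1 - ∑ p ∈ 𝓜, (1 : ℝ) / p) := by
  have h1 : ∏ p ∈ 𝓜, (1 - ((RR f k p).card : ℝ) / p) ≤
      ∏ p ∈ 𝓜, Real.exp (-(((RR f k p).card : ℝ) / p)) := by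
    refine prod_le_prod (fun p hp => ?_) fun p _ => ?_
    · have hp0 : (0 : ℝ) < p := by exact_mod_cast h𝓜 p hp
      have : ((RR f k p).card : ℝ) ≤ p := by
        have := card_le_card (filter_subset (fun n : ℕ => (p : ℤ) ∣ f.eval (n : ℤ) + k) (range p))
        rw [card_range] at this
        exact_mod_cast this
      rw [sub_nonneg, div_le_one hp0]
      exact this
    · have := Real.add_one_le_exp (-(((RR f k p).card : ℝ) / p))
      linarith
  refine h1.trans ?_
  rw [← Real.exp_sum]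
  apply Real.exp_le_exp.mpr
  have h2 : ∑ p ∈ 𝓜, -(((RR f k p).card : ℝ) / p) = -(SS f 𝓜 k) - ∑ p ∈ 𝓜, (1 : ℝ) / p := by
    unfold SS
    rw [← sum_neg_distrib, ← sum_sub_distrib]
    refine sum_congr rfl fun p _ => ?_
    ring
  rw [h2]
  linarith

end Pool.Agent.TH621.RP
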