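import Pool.Agent.TH621.RP.Sur

set_option autoImplicit false

/-! # The covering: every shift of every polynomial of the family is killed -/

namespace Pool.Agent.TH621.RP

open Finset Polynomial Filter

open Pool.Agent.H426R3.SQ (SP zR mertens_SP exists_inj_choice)

open scoped Classical

/-- largeness conditions -/
theorem ev_cov (n₀ M : ℝ) : ∃ l₀ : ℝ, ∀ l : ℝ, l₀ ≤ l → M ≤ l ∧ 1 ≤ Real.log l ∧
    1 ≤ Real.log (Real.log l) ∧ 30 * (Real.log l) ^ 2 ≤ l ∧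
    6 * n₀ * l * Real.exp (l / 5) ≤ Real.exp (l / 2) := by
  have t1 := Real.tendsto_log_atTop
  have t2 := t1.comp t1
  have h4 : ∀ᶠ l : ℝ in atTop, 30 * (Real.log l) ^ 2 ≤ l := by
    have e1 : (fun L : ℝ => (Real.log L) ^ (2:ℝ)) =o[atTop] (fun L : ℝ => L ^ (1 : ℝ)) :=
      isLittleO_log_rpow_rpow_atTop 2 (by norm_num)
    have e2 := e1.def (show (0:ℝ) < 1 / 30 by positivity)
    filter_upwards [e2, eventually_ge_atTop (1:ℝ)] with L hL hL2
    have hl : 0 ≤ Real.log L := Real.log_nonneg hL2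
    rw [Real.norm_eq_abs, Real.norm_eq_abs, abs_of_nonneg (Real.rpow_nonneg hl _),
      abs_of_nonneg (Real.rpow_nonneg (by linarith) _), Real.rpow_one] at hL
    have e3 : (Real.log L) ^ (2:ℝ) = (Real.log L) ^ 2 := by
      rw [← Real.rpow_natCast]; norm_num
    rw [e3] at hL
    linarith
  have h5 : ∀ᶠ l : ℝ in atTop, 6 * n₀ * l * Real.exp (l / 5) ≤ Real.exp (l / 2) := by
    filter_upwards [eventually_ge_atTop (max 1 (200 * |n₀|))] with l hl
    have l1 : 1 ≤ l := (le_max_left _ _).trans hl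
    have l2 : 200 * |n₀| ≤ l := (le_max_right _ _).trans hl
    have e1 : Real.exp (l / 2) = Real.exp (3 * l / 10) * Real.exp (l / 5) := by
      rw [← Real.exp_add]; congr 1; ring
    rw [e1]
    apply mul_le_mul_of_nonneg_right _ (Real.exp_pos _).le
    have e2 := Real.quadratic_le_exp_of_nonneg (show 0 ≤ 3 * l / 10 by linarith)
    have e3 : 6 * n₀ * l ≤ 6 * |n₀| * l := by
      have := le_abs_self n₀
      nlinarith
    have e4 : 6 * |n₀| * l ≤ (3 * l / 10) ^ 2 / 2 + 3 * l / 10 := by nlinarith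
    linarith
  have h := (eventually_ge_atTop M).and ((t1.eventually_ge_atTop 1).and
    ((t2.eventually_ge_atTop 1).and (h4.and h5)))
  obtain ⟨l₀, hl⟩ := eventually_atTop.1 h
  exact ⟨l₀, fun l h => hl l h⟩

/-- a prime dividing `n - a` and `f(a) + k` divides `f(n) + k` -/
theorem dvd_shift (f : ℤ[X]) (p : ℕ) (n a k : ℤ) (h1 : n ≡ a [ZMOD p])
    (h2 : (p : ℤ) ∣ f.eval a + k) : (p : ℤ) ∣ f.eval n + k := by
  have h3 : (p : ℤ) ∣ f.eval n - f.eval a :=
    (Int.ModEq.dvd h1.symm).trans (Polynomial.sub_dvd_eval_sub n a f)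
  have h4 : f.eval n + k = (f.eval n - f.eval a) + (f.eval a + k) := by ring
  rw [h4]
  exact dvd_add h3 h2

/-- colours counted through the translates -/
theorem fib_count (𝓕 : Finset ℤ[X]) (T : ℕ) (hf0 : ∀ f ∈ 𝓕, |f.eval 0| ≤ T) (Q : ℕ → Prop)
    (b : ℝ) (hb : (((Icc 1 (2 * T)).filter Q).card : ℝ) ≤ b) :
    (((𝓕 ×ˢ II T).filter (fun c => c.1.eval 0 + c.2 ≠ 0 ∧
      Q (c.1.eval 0 + c.2).natAbs)).card : ℝ) ≤ (𝓕.card : ℝ) * (2 * b) := by
  have h1 : (𝓕 ×ˢ II T).filter (fun c : ℤ[X] × ℤ => c.1.eval 0 + c.2 ≠ 0 ∧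
      Q (c.1.eval 0 + c.2).natAbs) ⊆ 𝓕.biUnion (fun f => ((II T).filter
        (fun k => f.eval 0 + k ≠ 0 ∧ Q (f.eval 0 + k).natAbs)).image (fun k => (f, k))) := by
    rintro ⟨f, k⟩ hc
    rw [mem_filter, mem_product] at hc
    rw [mem_biUnion]
    exact ⟨f, hc.1.1, mem_image.mpr ⟨k, mem_filter.mpr ⟨hc.1.2, hc.2⟩, rfl⟩⟩
  have h2 := (card_le_card h1).trans (card_biUnion_le_card_mul 𝓕 _
    (2 * ((Icc 1 (2 * T)).filter Q).card) fun f hf => by
      exact card_image_le.trans (count_abs _ T (hf0 f hf) Q))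
  have h3 : (((𝓕 ×ˢ II T).filter (fun c : ℤ[X] × ℤ => c.1.eval 0 + c.2 ≠ 0 ∧
      Q (c.1.eval 0 + c.2).natAbs)).card : ℝ) ≤
      ((𝓕.card * (2 * ((Icc 1 (2 * T)).filter Q).card) : ℕ) : ℝ) := Nat.cast_le.mpr h2
  refine h3.trans ?_
  rw [Nat.cast_mul, Nat.cast_mul, Nat.cast_ofNat]
  gcongr

/-- exceptional colours -/
theorem exc_count (𝓕 : Finset ℤ[X]) (h𝓕 : ∀ f ∈ 𝓕, 1 ≤ f.natDegree) (E A₀ P T : ℕ)
    (hfE : ∀ f ∈ 𝓕, f.natDegree ≤ E) (hfA : ∀ f ∈ 𝓕, ∀ i, |f.coeff i| ≤ A₀)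
    (hAP : A₀ ≤ P) (hP : 1 ≤ P) (𝓜 : Finset ℕ) (h𝓜 : ∀ p ∈ 𝓜, p.Prime ∧ P < p)
    (V : Finset (ℤ[X] × ℤ)) (hV : ∀ c ∈ V, c.1 ∈ 𝓕 ∧ c.2 ∈ II T ∧ SS c.1 𝓜 c.2 < -1)
    (hT : 1 ≤ T) :
    (V.card : ℝ) ≤ (𝓕.card : ℝ) * (3 * (𝓜.card : ℝ) ^ 2 + 3 * T * E ^ 2 / P) := by
  have h1 : V ⊆ 𝓕.biUnion (fun f => ((II T).filter (fun k => SS f 𝓜 k < -1)).image
      (fun k => (f, k))) := by
    rintro ⟨f, k⟩ hc
    have := hV _ hc
    rw [mem_biUnion]
    exact ⟨f, this.1, mem_image.mpr ⟨k, mem_filter.mpr this.2, rfl⟩⟩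
  have h2 : (V.card : ℝ) ≤ ∑ f ∈ 𝓕, (((II T).filter (fun k => SS f 𝓜 k < -1)).card : ℝ) := by
    have := (card_le_card h1).trans card_biUnion_le
    calc (V.card : ℝ) ≤ ((∑ f ∈ 𝓕, (((II T).filter (fun k => SS f 𝓜 k < -1)).image
        (fun k => (f, k))).card : ℕ) : ℝ) := Nat.cast_le.mpr this
      _ ≤ _ := by
        rw [Nat.cast_sum]
        refine sum_le_sum fun f _ => ?_
        exact Nat.cast_le.mpr card_image_le
  refine h2.trans ?_
  have h3 : ∀ f ∈ 𝓕, (((II T).filter (fun k => SS f 𝓜 k < -1)).card : ℝ) ≤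
      3 * (𝓜.card : ℝ) ^ 2 + 3 * T * E ^ 2 / P := by
    intro f hf
    have h4 := few_exc f (h𝓕 f hf) E P (hfE f hf) hP (by
      refine (hfA f hf _).trans ?_
      exact_mod_cast hAP) (-(T : ℤ) - 1) T (by
        have : (0 : ℤ) ≤ T := Int.natCast_nonneg T
        linarith) 𝓜 h𝓜
    refine h4.trans ?_
    push_cast
    have hT1 : (1 : ℝ) ≤ T := by exact_mod_cast hT
    have h5 : ((T : ℝ) - (-(T : ℝ) - 1)) * E ^ 2 / P ≤ (3 * T) * E ^ 2 / P := by
      have : (T : ℝ) - (-(T : ℝ) - 1) ≤ 3 * T := by linarith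
      gcongr
    linarith
  refine (sum_le_sum h3).trans ?_
  rw [sum_const, nsmul_eq_mul]

theorem aux1 {l : ℝ} (h : 20 ≤ l) : 4 * l ≤ Real.exp l := by
  have := Real.quadratic_le_exp_of_nonneg (show 0 ≤ l by linarith)
  nlinarith

theorem aux2 {x l T : ℝ} (hx : 0 < x) (h : 4 * l ≤ x) (hT : T ≤ x * l) : 4 * T ≤ x ^ 2 := by
  nlinarith

theorem aux4 {n l T : ℝ} (hl : 0 < l) (hT : 0 ≤ T) (h : 4 * n ≤ l ^ 3) :
    n * (4 * T / l ^ 3) ≤ T := by
  have e1 : n * (4 * T / l ^ 3) = (4 * n) * T / l ^ 3 := by ring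
  rw [e1, div_le_iff₀ (by positivity)]
  nlinarith

theorem aux6 {T E P l : ℝ} (hT : 0 ≤ T) (hl : 0 < l) (hP : l ^ 3 / 2 ≤ P) :
    3 * T * E ^ 2 / P ≤ 6 * T * E ^ 2 / l ^ 3 := by
  have h5 : 3 * T * E ^ 2 / P ≤ (3 * T) * E ^ 2 / (l ^ 3 / 2) := by gcongr
  have h6 : (3 * T) * E ^ 2 / (l ^ 3 / 2) = 6 * T * E ^ 2 / l ^ 3 := by
    rw [div_div_eq_mul_div]
    congr 1
    ring
  linarith

theorem aux7 {lP l ll m3 : ℝ} (hl : 0 < l) (hll : 0 < ll) (hm : 0 < m3) (h : lP ≤ 3 * ll) :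
    lP / (l * m3 / (10 * ll)) ≤ 30 * ll ^ 2 / (l * m3) := by
  rw [div_le_div_iff₀ (by positivity) (by positivity)]
  calc lP * (l * m3) ≤ (3 * ll) * (l * m3) := by gcongr
    _ = 30 * ll ^ 2 * (l * m3 / (10 * ll)) := by
        field_simp
        ring

/-- the final numerical inequality -/
theorem aux8 {n T l ll m3 z E A e x V₁ V₂ S : ℝ} (hn : 0 ≤ n) (hT : 0 ≤ T) (hl : 20 ≤ l)
    (hll : 1 ≤ ll) (hm : 1 ≤ m3) (hmll : m3 ≤ ll) (hA : 0 ≤ A) (he : 0 ≤ e) (hz : 0 ≤ z)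
    (hzl : z ≤ Real.exp (l / 10)) (h5 : 6 * n * l * Real.exp (l / 5) ≤ Real.exp (l / 2))
    (h1 : V₁ ≤ (n * (14 * (T / l))) * (e * (30 * ll ^ 2 / (l * m3))))
    (h2 : V₂ ≤ n * (3 * z ^ 2 + 6 * T * E ^ 2 / l ^ 3))
    (h3 : S ≤ n * (4 * T / l ^ 3)) :
    2 * x + (V₁ + V₂) * (2 * l) + S * (A * l) ≤ 2 * x + Real.exp (l / 2) +
      (n * (840 * e + 12 * E ^ 2 + 4 * A) + 1) * (T * ll ^ 2 / (l * m3)) := by
  have hl0 : 0 < l := by linarith
  have hm0 : 0 < m3 := by linarith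
  have hll0 : 0 < ll := by linarith
  set G := T * ll ^ 2 / (l * m3) with hG
  have hG0 : 0 ≤ G := by positivity
  have hTG : T / l ≤ G := by
    rw [hG, div_le_div_iff₀ hl0 (by positivity)]
    have e1 : m3 ≤ ll ^ 2 := by nlinarith
    have e2 : 0 ≤ T * l := by positivity
    nlinarith
  have hT2 : T / l ^ 2 ≤ G := by
    refine le_trans ?_ hTG
    apply div_le_div_of_nonneg_left hT hl0
    nlinarith
  have b1 : V₁ * (2 * l) ≤ n * (840 * e) * G := by
    calc V₁ * (2 * l) ≤ ((n * (14 * (T / l))) * (e * (30 * ll ^ 2 / (l * m3)))) * (2 * l) := by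
          gcongr
      _ = n * (840 * e) * G := by
          rw [hG]
          field_simp
          ring
  have hz2 : z ^ 2 ≤ Real.exp (l / 5) := by
    calc z ^ 2 ≤ (Real.exp (l / 10)) ^ 2 := by gcongr
      _ = Real.exp (l / 5) := by
          rw [← Real.exp_nat_mul]
          congr 1
          push_cast
          ring
  have b2 : V₂ * (2 * l) ≤ Real.exp (l / 2) + n * (12 * E ^ 2) * G := by
    calc V₂ * (2 * l) ≤ (n * (3 * z ^ 2 + 6 * T * E ^ 2 / l ^ 3)) * (2 * l) := by gcongr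
      _ = 6 * n * l * z ^ 2 + n * (12 * E ^ 2) * (T / l ^ 2) := by
          field_simp
          ring
      _ ≤ 6 * n * l * Real.exp (l / 5) + n * (12 * E ^ 2) * G := by gcongr
      _ ≤ _ := by linarith
  have b3 : S * (A * l) ≤ n * (4 * A) * G := by
    calc S * (A * l) ≤ (n * (4 * T / l ^ 3)) * (A * l) := by gcongr
      _ = n * (4 * A) * (T / l ^ 2) := by
          field_simp
      _ ≤ _ := by gcongr
  nlinarith

theorem cover (𝓕 : Finset ℤ[X]) (h𝓕 : ∀ f ∈ 𝓕, 1 ≤ f.natDegree) :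
    ∃ (C : ℝ) (A : ℕ), 0 < C ∧ ∃ x₀ : ℝ, ∀ x : ℝ, x₀ ≤ x → ∀ T : ℕ, x ≤ T →
    (T : ℝ) ≤ x * Real.log x →
    ∃ (𝓢 : Finset ℕ) (a : ℕ → ℕ),
      (∀ p ∈ 𝓢, p.Prime ∧ (p : ℝ) ≤ x ^ A) ∧
      ∑ p ∈ 𝓢, Real.log p ≤ 2 * x + Real.exp (Real.log x / 2) +
        C * (T * (Real.log (Real.log x)) ^ 2 / (Real.log x * Real.log (Real.log (Real.log x)))) ∧
      ∀ n : ℤ, (∀ p ∈ 𝓢, n ≡ (a p : ℤ) [ZMOD p]) → ∀ f ∈ 𝓕, ∀ k : ℤ, |k| ≤ T →
        ∃ p ∈ 𝓢, (p : ℤ) ∣ f.eval n + k := by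
  obtain ⟨Cm, hCm, hmert⟩ := mertens_SP
  obtain ⟨x₁, hsmooth⟩ := smooth_le
  set E : ℕ := 𝓕.sup (fun f => f.natDegree) + 1 with hE
  set A₀ : ℕ := 𝓕.sup (fun f => ∑ i ∈ f.support, (f.coeff i).natAbs) + 1 with hA₀
  have hfE : ∀ f ∈ 𝓕, f.natDegree ≤ E := by
    intro f hf
    have := le_sup (f := fun f : ℤ[X] => f.natDegree) hf
    omega
  have hfA : ∀ f ∈ 𝓕, ∀ i, |f.coeff i| ≤ A₀ := by
    intro f hf i
    have h1 := le_sup (f := fun f : ℤ[X] => ∑ i ∈ f.support, (f.coeff i).natAbs) hf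
    have h2 : (f.coeff i).natAbs ≤ ∑ i ∈ f.support, (f.coeff i).natAbs := by
      by_cases hi : i ∈ f.support
      · exact single_le_sum (f := fun i => (f.coeff i).natAbs) (fun _ _ => Nat.zero_le _) hi
      · rw [notMem_support_iff] at hi
        rw [hi]; simp
    have h3 : (f.coeff i).natAbs ≤ A₀ := by omega
    rw [Int.abs_eq_natAbs]
    exact_mod_cast h3
  obtain ⟨aK, haK, u₀, hlemK⟩ := lemK E A₀
  set n₀ : ℝ := (𝓕.card : ℝ) with hn₀
  have hn₀0 : 0 ≤ n₀ := Nat.cast_nonneg _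
  obtain ⟨A, hA⟩ : ∃ A : ℕ, A = 2 * aK + 2 := ⟨_, rfl⟩
  set C : ℝ := n₀ * (840 * Real.exp (1 + Cm) + 12 * E ^ 2 + 4 * A) + 1 with hC
  have hC0 : 0 < C := by
    have : 0 ≤ n₀ * (840 * Real.exp (1 + Cm) + 12 * E ^ 2 + 4 * A) := by positivity
    linarith
  obtain ⟨l₀, hl₀⟩ := ev_cov n₀ (max 20 (max A₀ (max u₀ (4 * n₀))))
  refine ⟨C, A, hC0, max x₁ (Real.exp l₀), ?_⟩
  intro x hx T hxT hTx
  have hx1 : x₁ ≤ x := (le_max_left _ _).trans hx
  have hx2 : Real.exp l₀ ≤ x := (le_max_right _ _).trans hx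
  have hx0 : 0 < x := (Real.exp_pos _).trans_le hx2
  set l := Real.log x with hl
  have hll : l₀ ≤ l := by rw [hl, Real.le_log_iff_exp_le hx0]; exact hx2
  obtain ⟨g1, g2, g3, g4, g5⟩ := hl₀ l hll
  have g1a : 20 ≤ l := (le_max_left _ _).trans g1
  have g1b : (A₀ : ℝ) ≤ l := (le_max_left _ _).trans ((le_max_right _ _).trans g1)
  have g1c : (u₀ : ℝ) ≤ l :=
    (le_max_left _ _).trans ((le_max_right _ _).trans ((le_max_right _ _).trans g1))
  have g1d : 4 * n₀ ≤ l :=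
    (le_max_right _ _).trans ((le_max_right _ _).trans ((le_max_right _ _).trans g1))
  have hl0 : 0 < l := by linarith
  set ll := Real.log l with hlle
  set m3 := Real.log ll with hm3
  have hxe : x = Real.exp l := (Real.exp_log hx0).symm
  have hlx : l ≤ x := by
    rw [hxe]
    have := Real.add_one_le_exp l
    linarith
  have hT0 : (0 : ℝ) < T := lt_of_lt_of_le hx0 hxT
  have hT0' : 0 < T := by exact_mod_cast hT0
  have hA₀T : (A₀ : ℤ) ≤ T := by
    have : (A₀ : ℝ) ≤ T := by linarith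
    exact_mod_cast this
  have hf0 : ∀ f ∈ 𝓕, |f.eval 0| ≤ T := by
    intro f hf
    have := hfA f hf 0
    rw [Polynomial.coeff_zero_eq_eval_zero] at this
    exact this.trans hA₀T
  -- the parameters
  set z := zR x with hz
  have hlz : Real.log z = l * m3 / (10 * ll) := by
    rw [hz]; unfold zR; rw [Real.log_exp]
  have hz0 : 0 < z := by rw [hz]; unfold zR; exact Real.exp_pos _
  set P : ℕ := ⌊l ^ 3⌋₊ with hP
  have hPle : (P : ℝ) ≤ l ^ 3 := Nat.floor_le (by positivity)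
  have hPge : l ^ 3 - 1 < P := by
    have := Nat.lt_floor_add_one (l ^ 3)
    linarith
  have hl3 : 8000 ≤ l ^ 3 := by
    calc (8000 : ℝ) = 20 ^ 3 := by norm_num
      _ ≤ l ^ 3 := by gcongr
  have hPhalf : l ^ 3 / 2 ≤ P := by linarith
  have hP4 : (4 : ℝ) ≤ P := by linarith
  have hP0 : (0 : ℝ) < P := by linarith
  have hl2 : 400 ≤ l ^ 2 := by
    calc (400 : ℝ) = 20 ^ 2 := by norm_num
      _ ≤ l ^ 2 := by gcongr
  have hl3' : 400 * l ≤ l ^ 3 := by
    calc 400 * l ≤ l ^ 2 * l := by gcongr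
      _ = l ^ 3 := by ring
  have hPl : 4 * l < P := by linarith
  have hlPle : Real.log P ≤ 3 * ll := by
    calc Real.log P ≤ Real.log (l ^ 3) := Real.log_le_log hP0 hPle
      _ = 3 * ll := by rw [Real.log_pow]; norm_num; rfl
  have hlP0 : 0 < Real.log P := Real.log_pos (by linarith)
  have hm3ll : m3 ≤ ll := by
    have := Real.log_le_sub_one_of_pos (show 0 < ll by linarith)
    linarith
  have hlz3 : 3 * ll ≤ Real.log z := by
    rw [hlz, le_div_iff₀ (by positivity)]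
    have h1 := mul_le_mul_of_nonneg_left g3 hl0.le
    have h2 : 3 * ll * (10 * ll) = 30 * ll ^ 2 := by ring
    linarith
  have hlz0 : 0 < Real.log z := by linarith
  have hPz : (P : ℝ) ≤ z := by
    rw [← Real.log_le_log_iff hP0 hz0]
    linarith
  have hlz10 : Real.log z ≤ l / 10 := by
    rw [hlz, div_le_iff₀ (by positivity)]
    have h1 := mul_le_mul_of_nonneg_left hm3ll hl0.le
    have h2 : l / 10 * (10 * ll) = l * ll := by ring
    linarith
  have hzx10 : z ≤ Real.exp (l / 10) := by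
    rw [← Real.log_le_iff_le_exp hz0]
    exact hlz10
  have hzx : z ≤ x := by
    rw [hxe]
    exact hzx10.trans (Real.exp_le_exp.mpr (by linarith))
  set 𝓜 := SP (P : ℝ) z ∅ with h𝓜
  have h𝓜m : ∀ p, p ∈ 𝓜 ↔ (1 ≤ p ∧ p ≤ ⌊z⌋₊) ∧ p.Prime ∧ P < p := by
    intro p
    rw [h𝓜]
    unfold SP
    rw [mem_filter, mem_Icc]
    simp
  have h𝓜z : ∀ p ∈ 𝓜, (p : ℝ) ≤ z := by
    intro p hp
    exact (Nat.le_floor_iff hz0.le).mp ((h𝓜m p).mp hp).1.2
  have h𝓜card : (𝓜.card : ℝ) ≤ z := by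
    have h1 : 𝓜 ⊆ Icc 1 ⌊z⌋₊ := fun p hp => mem_Icc.mpr ((h𝓜m p).mp hp).1
    have h2 := card_le_card h1
    rw [Nat.card_Icc, Nat.add_sub_cancel] at h2
    calc (𝓜.card : ℝ) ≤ (⌊z⌋₊ : ℝ) := by exact_mod_cast h2
      _ ≤ z := Nat.floor_le hz0.le
  -- colours
  set Cp : Finset (ℤ[X] × ℤ) := (𝓕 ×ˢ II T).filter
    (fun c => c.1.eval 0 + c.2 ≠ 0 ∧ (c.1.eval 0 + c.2).natAbs.Prime) with hCp
  set C₁ : Finset (ℤ[X] × ℤ) := Cp.filter (fun c => ¬ SS c.1 𝓜 c.2 < -1) with hC₁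
  set V₂ : Finset (ℤ[X] × ℤ) := Cp.filter (fun c => SS c.1 𝓜 c.2 < -1) with hV₂
  set Sm : Finset (ℤ[X] × ℤ) := (𝓕 ×ˢ II T).filter (fun c => c.1.eval 0 + c.2 ≠ 0 ∧
    ∀ p : ℕ, p.Prime → p ∣ (c.1.eval 0 + c.2).natAbs → (p : ℝ) ≤ z) with hSm
  -- prime colours
  have hexT : Real.exp l ≤ T := by rw [← hxe]; exact hxT
  have hCpc : (Cp.card : ℝ) ≤ n₀ * (14 * (T / l)) := by
    have h2 := primes_le (by linarith) hexT
    have h1 := fib_count 𝓕 T hf0 Nat.Prime (7 * (T / l)) (by convert h2)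
    have h3 : (Cp.card : ℝ) ≤ n₀ * (2 * (7 * (T / l))) := by
      rw [hCp, hn₀]
      convert h1
    refine h3.trans (le_of_eq ?_)
    ring
  -- smooth colours
  have hSmc : (Sm.card : ℝ) ≤ n₀ * (4 * T / l ^ 3) := by
    have h2 := hsmooth x hx1 T hxT
    have h1 := fib_count 𝓕 T hf0 (fun m => ∀ p : ℕ, p.Prime → p ∣ m → (p : ℝ) ≤ z)
      (2 * T / l ^ 3) h2
    refine h1.trans (le_of_eq ?_)
    ring
  -- logarithms of multiples of `T`
  have h4Tx : 4 * (T : ℝ) ≤ x ^ 2 := by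
    have e2 : 4 * l ≤ x := by
      rw [hxe]
      exact aux1 g1a
    exact aux2 hx0 e2 hTx
  have hx1' : 1 ≤ x := by linarith
  have h4T : Real.log (4 * T) ≤ 2 * l := by
    calc Real.log (4 * T) ≤ Real.log (x ^ 2) :=
          Real.log_le_log (mul_pos (by norm_num) hT0) h4Tx
      _ = 2 * l := by rw [Real.log_pow]; norm_num; rfl
  have h2T : Real.log (2 * T) ≤ 2 * l :=
    (Real.log_le_log (mul_pos (by norm_num) hT0) (by linarith)).trans h4T
  have hxA : x ^ 2 ≤ x ^ A := pow_le_pow_right₀ hx1' (by omega)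
  -- exceptional colours
  have hV₂c : (V₂.card : ℝ) ≤ n₀ * (3 * z ^ 2 + 6 * T * E ^ 2 / l ^ 3) := by
    have h1 := exc_count 𝓕 h𝓕 E A₀ P T hfE hfA (by
        have : (A₀ : ℝ) ≤ P := by linarith
        exact_mod_cast this) (by
        have : (1 : ℝ) ≤ P := by linarith
        exact_mod_cast this) 𝓜 (fun p hp => ((h𝓜m p).mp hp).2) V₂ (by
        intro c hc
        rw [hV₂, mem_filter, hCp, mem_filter, mem_product] at hc
        exact ⟨hc.1.1.1, hc.1.1.2, hc.2⟩) hT0'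
    refine h1.trans ?_
    have h5 := aux6 (E := (E : ℝ)) hT0.le hl0 hPhalf
    have h7 : (𝓜.card : ℝ) ^ 2 ≤ z ^ 2 := pow_le_pow_left₀ (Nat.cast_nonneg _) h𝓜card 2
    apply mul_le_mul_of_nonneg_left _ hn₀0
    linarith
  -- random residues
  obtain ⟨r, hr⟩ := choice 𝓜 (fun p hp => ((h𝓜m p).mp hp).2.1.pos)
    (fun c : ℤ[X] × ℤ => fun p => RR c.1 c.2 p) (fun c p => filter_subset _ _) C₁
    (fun _ => 1) (fun _ => zero_le_one)
  set V₁ : Finset (ℤ[X] × ℤ) := C₁.filter (fun c => ∀ p ∈ 𝓜, r p ∉ RR c.1 c.2 p) with hV₁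
  have hexpb : Real.exp (1 - ∑ p ∈ 𝓜, (1 : ℝ) / p) ≤
      Real.exp (1 + Cm) * (30 * ll ^ 2 / (l * m3)) := by
    have h1 := hmert P z hP4 hPz
    rw [← h𝓜] at h1
    have h2 : Real.exp (1 - ∑ p ∈ 𝓜, (1 : ℝ) / p) ≤
        Real.exp ((1 + Cm) + Real.log (Real.log P) - Real.log (Real.log z)) := by
      apply Real.exp_le_exp.mpr
      linarith
    refine h2.trans ?_
    rw [Real.exp_sub, Real.exp_add, Real.exp_log hlP0, Real.exp_log hlz0, mul_div_assoc]
    apply mul_le_mul_of_nonneg_left _ (Real.exp_pos _).le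
    rw [hlz]
    exact aux7 hl0 (by linarith) (by linarith) hlPle
  have hV₁c : (V₁.card : ℝ) ≤ (n₀ * (14 * (T / l))) *
      (Real.exp (1 + Cm) * (30 * ll ^ 2 / (l * m3))) := by
    have h1 : (V₁.card : ℝ) = ∑ _c ∈ V₁, (1 : ℝ) := by simp
    rw [h1]
    refine hr.trans ?_
    calc ∑ c ∈ C₁, 1 * ∏ p ∈ 𝓜, (1 - ((RR c.1 c.2 p).card : ℝ) / p)
        ≤ ∑ _c ∈ C₁, Real.exp (1 - ∑ p ∈ 𝓜, (1 : ℝ) / p) := by
          refine sum_le_sum fun c hc => ?_
          rw [one_mul]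
          apply prod_le_exp _ _ _ (fun p hp => ((h𝓜m p).mp hp).2.1.pos)
          rw [hC₁, mem_filter] at hc
          exact not_lt.mp hc.2
      _ = (C₁.card : ℝ) * Real.exp (1 - ∑ p ∈ 𝓜, (1 : ℝ) / p) := by
          rw [sum_const, nsmul_eq_mul]
      _ ≤ (n₀ * (14 * (T / l))) * (Real.exp (1 + Cm) * (30 * ll ^ 2 / (l * m3))) := by
          apply mul_le_mul _ hexpb (Real.exp_pos _).le
            (mul_nonneg hn₀0 (mul_nonneg (by norm_num) (div_nonneg hT0.le hl0.le)))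
          refine le_trans ?_ hCpc
          exact_mod_cast card_le_card (filter_subset _ _)
  -- extra primes
  set cand : ℤ[X] × ℤ → Finset ℕ := fun c => (Icc 1 ⌊x ^ A⌋₊).filter
    (fun q => q.Prime ∧ 2 * T < q ∧ ∃ b : ℕ, (q : ℤ) ∣ c.1.eval (b : ℤ) + c.2) with hcand
  have hSmT : Sm.card ≤ T := by
    have h1 : (Sm.card : ℝ) ≤ T := by
      exact hSmc.trans (aux4 hl0 hT0.le (by linarith))
    exact_mod_cast h1
  have hcard : ∀ c ∈ Sm, Sm.card ≤ (cand c).card := by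
    intro c hc
    by_contra hcon
    push Not at hcon
    rw [hSm, mem_filter, mem_product, mem_II] at hc
    obtain ⟨⟨hc1, hc2⟩, hc3, hc4⟩ := hc
    have hdeg : (c.1 + Polynomial.C c.2).natDegree = c.1.natDegree := natDegree_add_C
    have hUc : ((Icc 1 (2 * T)).filter Nat.Prime ∪ cand c).card ≤ 4 * T := by
      refine (card_union_le _ _).trans ?_
      have e1 : ((Icc 1 (2 * T)).filter Nat.Prime).card ≤ 2 * T := by
        have := card_le_card (filter_subset Nat.Prime (Icc 1 (2 * T)))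
        rwa [Nat.card_Icc, Nat.add_sub_cancel] at this
      omega
    obtain ⟨q, b, hq1, hq2, hq3, hq4⟩ := hlemK (4 * T) (by
        have : (u₀ : ℝ) ≤ 4 * T := by linarith
        exact_mod_cast this) (c.1 + Polynomial.C c.2) (by rw [hdeg]; exact h𝓕 _ hc1)
      (by rw [hdeg]; exact hfE _ hc1)
      (fun i hi => by
        rw [coeff_add, coeff_C, if_neg (by omega), add_zero]
        exact hfA _ hc1 i)
      (by
        rw [coeff_add, coeff_C, if_pos rfl, coeff_zero_eq_eval_zero]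
        refine (abs_add_le _ _).trans ?_
        have := hf0 _ hc1
        push_cast
        linarith [Int.natCast_nonneg T])
      ((Icc 1 (2 * T)).filter Nat.Prime ∪ cand c) (by
        intro p hp
        rcases mem_union.mp hp with h | h
        · exact (mem_filter.mp h).2
        · rw [hcand] at h
          exact (mem_filter.mp h).2.1) hUc
    apply hq2
    rw [mem_union]
    by_cases h2 : q ≤ 2 * T
    · left
      exact mem_filter.mpr ⟨mem_Icc.mpr ⟨hq1.one_lt.le, h2⟩, hq1⟩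
    · right
      rw [hcand, mem_filter, mem_Icc]
      refine ⟨⟨hq1.one_lt.le, ?_⟩, hq1, by omega, b, ?_⟩
      · apply Nat.le_floor
        have e1 : (q : ℝ) ≤ (4 * (T : ℝ)) ^ aK := by exact_mod_cast hq4
        have e2 : (4 * (T : ℝ)) ^ aK ≤ (x ^ 2) ^ aK :=
          pow_le_pow_left₀ (mul_nonneg (by norm_num) hT0.le) h4Tx aK
        rw [← pow_mul] at e2
        exact e1.trans (e2.trans (pow_le_pow_right₀ hx1' (by omega)))
      · simpa using hq3
  obtain ⟨pu, hpu, hinj⟩ := exists_inj_choice Sm cand hcard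
  have hpu' : ∀ c ∈ Sm, (pu c).Prime ∧ 2 * T < pu c ∧ (pu c : ℝ) ≤ x ^ A ∧
      ∃ b : ℕ, (pu c : ℤ) ∣ c.1.eval (b : ℤ) + c.2 := by
    intro c hc
    have h1 := hpu c hc
    rw [hcand, mem_filter, mem_Icc] at h1
    refine ⟨h1.2.1, h1.2.2.1, ?_, h1.2.2.2⟩
    exact (Nat.le_floor_iff (pow_nonneg hx0.le A)).mp h1.1.2
  have hbb : ∀ c : ℤ[X] × ℤ, ∃ b : ℕ, c ∈ Sm → (pu c : ℤ) ∣ c.1.eval (b : ℤ) + c.2 := by
    intro c
    by_cases h : c ∈ Sm
    · obtain ⟨b, hb⟩ := (hpu' c h).2.2.2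
      exact ⟨b, fun _ => hb⟩
    · exact ⟨0, fun h' => absurd h' h⟩
  choose bb hbb using hbb
  -- the assignment
  set a : ℕ → ℕ := fun p => if p ∈ 𝓜 then r p else
    if h : ∃ c ∈ Sm, pu c = p then bb h.choose else 0 with ha
  have ha1 : ∀ p ∈ 𝓜, a p = r p := by
    intro p hp
    rw [ha]
    simp only
    rw [if_pos hp]
  have hzT : z ≤ T := hzx.trans hxT
  have ha2 : ∀ p : ℕ, p ∉ 𝓜 → p ≤ 2 * T → a p = 0 := by
    intro p hp hp2
    rw [ha]
    simp only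
    rw [if_neg hp, dif_neg]
    rintro ⟨c, hc, rfl⟩
    have := (hpu' c hc).2.1
    omega
  have ha3 : ∀ c ∈ Sm, a (pu c) = bb c := by
    intro c hc
    have h1 : pu c ∉ 𝓜 := by
      intro h
      have h2 := h𝓜z _ h
      have h3 := (hpu' c hc).2.1
      have h4 : (2 * T : ℝ) < pu c := by exact_mod_cast h3
      linarith
    have h2 : ∃ c' ∈ Sm, pu c' = pu c := ⟨c, hc, rfl⟩
    rw [ha]
    simp only
    rw [if_neg h1, dif_pos h2]
    congr 1
    exact hinj (mem_coe.mpr h2.choose_spec.1) (mem_coe.mpr hc) h2.choose_spec.2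
  set S₁ : Finset ℕ := (Icc 0 ⌊x⌋₊).filter Nat.Prime with hS₁
  set S₂ : Finset ℕ := (V₁ ∪ V₂).image (fun c => (c.1.eval 0 + c.2).natAbs) with hS₂
  set S₃ : Finset ℕ := Sm.image pu with hS₃
  have hVCp : ∀ c ∈ V₁ ∪ V₂, c ∈ Cp := by
    intro c hc
    rcases mem_union.mp hc with h | h
    · rw [hV₁, mem_filter, hC₁, mem_filter] at h
      exact h.1.1
    · rw [hV₂, mem_filter] at h
      exact h.1
  have hS₂p : ∀ p ∈ S₂, p.Prime ∧ p ≤ 2 * T := by
    intro p hp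
    rw [hS₂, mem_image] at hp
    obtain ⟨c, hc, rfl⟩ := hp
    have h1 := hVCp c hc
    rw [hCp, mem_filter, mem_product, mem_II] at h1
    refine ⟨h1.2.2, ?_⟩
    have e2 : |c.1.eval 0 + c.2| ≤ 2 * T :=
      (abs_add_le _ _).trans (by linarith [hf0 _ h1.1.1, h1.1.2])
    have e3 : (((c.1.eval 0 + c.2).natAbs : ℕ) : ℤ) ≤ ((2 * T : ℕ) : ℤ) := by
      rw [Int.natCast_natAbs]
      push_cast
      exact e2
    exact_mod_cast e3
  refine ⟨(S₁ ∪ S₂) ∪ S₃, a, ?_, ?_, ?_⟩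
  · -- primes, bounded
    intro p hp
    rw [mem_union, mem_union] at hp
    rcases hp with (h | h) | h
    · rw [hS₁, mem_filter, mem_Icc] at h
      refine ⟨h.2, ?_⟩
      have h1 : (p : ℝ) ≤ x := (Nat.le_floor_iff hx0.le).mp h.1.2
      refine h1.trans (le_trans ?_ hxA)
      exact le_self_pow₀ hx1' (by norm_num)
    · obtain ⟨h1, h2⟩ := hS₂p p h
      refine ⟨h1, ?_⟩
      have h3 : (p : ℝ) ≤ 2 * T := by exact_mod_cast h2
      linarith
    · rw [hS₃, mem_image] at h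
      obtain ⟨c, hc, rfl⟩ := h
      exact ⟨(hpu' c hc).1, (hpu' c hc).2.2.1⟩
  · -- cost
    have hunion : ∀ s t : Finset ℕ, ∑ p ∈ s ∪ t, Real.log (p : ℝ) ≤
        ∑ p ∈ s, Real.log (p : ℝ) + ∑ p ∈ t, Real.log (p : ℝ) := by
      intro s t
      rw [← sum_union_inter]
      have : 0 ≤ ∑ p ∈ s ∩ t, Real.log (p : ℝ) :=
        sum_nonneg fun p _ => Real.log_natCast_nonneg p
      linarith
    have c1 : ∑ p ∈ S₁, Real.log (p : ℝ) ≤ 2 * x := by
      have e1 := Chebyshev.theta_le_log4_mul_x hx0.le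
      rw [Chebyshev.theta_eq_sum_Icc] at e1
      refine e1.trans ?_
      have e2 : Real.log 4 ≤ 2 := by
        have h5 : Real.log 4 = 2 * Real.log 2 := by
          rw [show (4 : ℝ) = 2 ^ 2 by norm_num, Real.log_pow]; norm_num
        have h6 := Real.log_two_lt_d9
        linarith
      exact mul_le_mul_of_nonneg_right e2 hx0.le
    have c2 : ∑ p ∈ S₂, Real.log (p : ℝ) ≤ ((V₁.card : ℝ) + V₂.card) * (2 * l) := by
      have e1 : ∑ p ∈ S₂, Real.log (p : ℝ) ≤ ∑ _p ∈ S₂, 2 * l := by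
        refine sum_le_sum fun p hp => ?_
        obtain ⟨h1, h2⟩ := hS₂p p hp
        refine le_trans ?_ h2T
        apply Real.log_le_log (by exact_mod_cast h1.pos)
        exact_mod_cast h2
      refine e1.trans ?_
      rw [sum_const, nsmul_eq_mul]
      apply mul_le_mul_of_nonneg_right _ (by linarith)
      have e2 : S₂.card ≤ V₁.card + V₂.card := card_image_le.trans (card_union_le _ _)
      exact_mod_cast e2
    have c3 : ∑ p ∈ S₃, Real.log (p : ℝ) ≤ (Sm.card : ℝ) * (A * l) := by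
      have e1 : ∑ p ∈ S₃, Real.log (p : ℝ) ≤ ∑ _p ∈ S₃, A * l := by
        refine sum_le_sum fun p hp => ?_
        rw [hS₃, mem_image] at hp
        obtain ⟨c, hc, rfl⟩ := hp
        have h1 := hpu' c hc
        have h2 := Real.log_le_log (by exact_mod_cast h1.1.pos) h1.2.2.1
        rwa [Real.log_pow, ← hl] at h2
      refine e1.trans ?_
      rw [sum_const, nsmul_eq_mul]
      apply mul_le_mul_of_nonneg_right _ (mul_nonneg (Nat.cast_nonneg A) hl0.le)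
      have e2 : S₃.card ≤ Sm.card := card_image_le
      exact_mod_cast e2
    have c4 := aux8 (x := x) hn₀0 hT0.le g1a g2 g3 hm3ll (Nat.cast_nonneg A)
      (Real.exp_pos (1 + Cm)).le hz0.le hzx10 g5 hV₁c hV₂c hSmc
    have c5 := hunion (S₁ ∪ S₂) S₃
    have c6 := hunion S₁ S₂
    rw [hC]
    linarith
  · -- killing
    intro n hn f hf k hk
    have hkI : k ∈ II T := mem_II.mpr hk
    have hzero : ∀ p : ℕ, p ∈ (S₁ ∪ S₂) ∪ S₃ → p ∉ 𝓜 → p ≤ 2 * T →
        (p : ℤ) ∣ f.eval 0 + k → ∃ p ∈ (S₁ ∪ S₂) ∪ S₃, (p : ℤ) ∣ f.eval n + k := by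
      intro p hp hpM hpT hd
      refine ⟨p, hp, dvd_shift f p n 0 k ?_ hd⟩
      have h1 := hn p hp
      rw [ha2 p hpM hpT] at h1
      simpa using h1
    have hS₁m : ∀ p : ℕ, p.Prime → (p : ℝ) ≤ x → p ∈ (S₁ ∪ S₂) ∪ S₃ := by
      intro p hp hpx
      apply mem_union_left
      apply mem_union_left
      rw [hS₁, mem_filter, mem_Icc]
      exact ⟨⟨Nat.zero_le _, Nat.le_floor hpx⟩, hp⟩
    have hxT2 : ∀ p : ℕ, (p : ℝ) ≤ x → p ≤ 2 * T := by
      intro p hp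
      have : (p : ℝ) ≤ 2 * T := by linarith
      exact_mod_cast this
    have hPx : (P : ℝ) ≤ x := hPz.trans hzx
    by_cases ht0 : f.eval 0 + k = 0
    · have h2x : ((2 : ℕ) : ℝ) ≤ x := by push_cast; linarith
      refine hzero 2 (hS₁m 2 Nat.prime_two h2x) ?_ (hxT2 2 h2x) (by rw [ht0]; exact dvd_zero _)
      intro h
      have h1 := ((h𝓜m 2).mp h).2.2
      have h2 : (P : ℝ) < 2 := by exact_mod_cast h1
      linarith
    by_cases hsm : ∃ p : ℕ, p.Prime ∧ p ≤ P ∧ (p : ℤ) ∣ f.eval 0 + k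
    · obtain ⟨p, hp1, hp2, hp3⟩ := hsm
      have hpx : (p : ℝ) ≤ x := by
        have : (p : ℝ) ≤ P := by exact_mod_cast hp2
        linarith
      refine hzero p (hS₁m p hp1 hpx) ?_ (hxT2 p hpx) hp3
      intro h
      have h1 := ((h𝓜m p).mp h).2.2
      omega
    by_cases hmd : ∃ p : ℕ, p.Prime ∧ z < p ∧ (p : ℝ) ≤ x ∧ (p : ℤ) ∣ f.eval 0 + k
    · obtain ⟨p, hp1, hp2, hp3, hp4⟩ := hmd
      refine hzero p (hS₁m p hp1 hp3) ?_ (hxT2 p hp3) hp4
      intro h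
      have h1 := h𝓜z p h
      linarith
    push Not at hsm hmd
    by_cases hs : ∀ p : ℕ, p.Prime → p ∣ (f.eval 0 + k).natAbs → (p : ℝ) ≤ z
    · -- smooth
      have hc : (f, k) ∈ Sm := by
        rw [hSm, mem_filter, mem_product]
        exact ⟨⟨hf, hkI⟩, ht0, hs⟩
      have hmem : pu (f, k) ∈ (S₁ ∪ S₂) ∪ S₃ := by
        apply mem_union_right
        rw [hS₃, mem_image]
        exact ⟨_, hc, rfl⟩
      refine ⟨pu (f, k), hmem, dvd_shift f _ n (bb (f, k)) k ?_ (hbb _ hc)⟩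
      have h1 := hn _ hmem
      rwa [ha3 _ hc] at h1
    · -- a large prime factor
      push Not at hs
      obtain ⟨q, hq1, hq2, hq3⟩ := hs
      have hqd : (q : ℤ) ∣ f.eval 0 + k := Int.natCast_dvd.mpr hq2
      have hqx : x < q := by
        by_contra hcon
        push Not at hcon
        exact hmd q hq1 hq3 hcon hqd
      obtain ⟨m', hm'⟩ := hq2
      have habs : (f.eval 0 + k).natAbs ≤ 2 * T := by
        have e2 : |f.eval 0 + k| ≤ 2 * T :=
          (abs_add_le _ _).trans (by linarith [hf0 _ hf, hk])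
        have e3 : (((f.eval 0 + k).natAbs : ℕ) : ℤ) ≤ ((2 * T : ℕ) : ℤ) := by
          rw [Int.natCast_natAbs]
          push_cast
          exact e2
        exact_mod_cast e3
      have hm'1 : m' = 1 := by
        by_contra hne
        obtain ⟨p, hp1, hp2⟩ := Nat.exists_prime_and_dvd hne
        have hm'0 : 0 < m' := by
          rcases Nat.eq_zero_or_pos m' with h | h
          · rw [h, mul_zero, Int.natAbs_eq_zero] at hm'
            exact absurd hm' ht0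
          · exact h
        have hpm : p ≤ m' := Nat.le_of_dvd hm'0 hp2
        apply hsm p hp1 _ (Int.natCast_dvd.mpr (by rw [hm']; exact Dvd.dvd.mul_left hp2 q))
        have h1 : (q : ℝ) * m' ≤ 2 * T := by
          rw [hm'] at habs
          exact_mod_cast habs
        have h2 : x * m' ≤ x * (2 * l) := by
          have e1 : x * m' ≤ q * m' := mul_le_mul_of_nonneg_right hqx.le (Nat.cast_nonneg _)
          linarith
        have h3 : (m' : ℝ) ≤ 2 * l := le_of_mul_le_mul_left h2 hx0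
        have h4 : (m' : ℝ) ≤ P := by linarith
        have h5 : m' ≤ P := by exact_mod_cast h4
        omega
      rw [hm'1, mul_one] at hm'
      have hcp : (f, k) ∈ Cp := by
        rw [hCp, mem_filter, mem_product]
        refine ⟨⟨hf, hkI⟩, ht0, ?_⟩
        show (f.eval 0 + k).natAbs.Prime
        rw [hm']
        exact hq1
      have hq2T : q ≤ 2 * T := by rw [← hm']; exact habs
      have hqM : q ∉ 𝓜 := by
        intro h
        have := h𝓜z q h
        linarith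
      have hV : (f, k) ∈ V₁ ∪ V₂ → ∃ p ∈ (S₁ ∪ S₂) ∪ S₃, (p : ℤ) ∣ f.eval n + k := by
        intro h
        refine hzero q ?_ hqM hq2T hqd
        apply mem_union_left
        apply mem_union_right
        rw [hS₂, mem_image]
        exact ⟨_, h, hm'⟩
      by_cases hex : SS f 𝓜 k < -1
      · apply hV
        apply mem_union_right
        rw [hV₂, mem_filter]
        exact ⟨hcp, hex⟩
      · by_cases hsv : ∀ p ∈ 𝓜, r p ∉ RR f k p
        · apply hV
          apply mem_union_left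
          rw [hV₁, mem_filter, hC₁, mem_filter]
          exact ⟨⟨hcp, hex⟩, hsv⟩
        · push Not at hsv
          obtain ⟨p, hp1, hp2⟩ := hsv
          have hpz := h𝓜z p hp1
          have hmem := hS₁m p ((h𝓜m p).mp hp1).2.1 (hpz.trans hzx)
          refine ⟨p, hmem, dvd_shift f p n (r p) k ?_ ?_⟩
          · have h1 := hn p hmem
            rwa [ha1 p hp1] at h1
          · unfold RR at hp2
            exact (mem_filter.mp hp2).2

end Pool.Agent.TH621.RP
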