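import Pool.Agent.TH621.RP.Van
import Pool.Agent.Helper256.KM.Mertens

set_option autoImplicit false

/-! # Values of a polynomial have prime factors outside a given finite set -/

namespace Pool.Agent.TH621.RP

open Finset Polynomial

/-- size of the values of a polynomial -/
theorem eval_upper (g : ℤ[X]) (D : ℕ) (hD : g.natDegree ≤ D) (B : ℤ)
    (hB : ∀ i, |g.coeff i| ≤ B) (n : ℤ) (hn : 1 ≤ |n|) :
    |g.eval n| ≤ (D + 1) * B * |n| ^ D := by
  have hB0 : 0 ≤ B := (abs_nonneg _).trans (hB 0)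
  rw [Polynomial.eval_eq_sum_range]
  calc |∑ i ∈ range (g.natDegree + 1), g.coeff i * n ^ i|
      ≤ ∑ i ∈ range (g.natDegree + 1), |g.coeff i * n ^ i| := abs_sum_le_sum_abs _ _
    _ ≤ ∑ _i ∈ range (g.natDegree + 1), B * |n| ^ D := by
        refine sum_le_sum fun i hi => ?_
        rw [abs_mul, abs_pow]
        have : i ≤ D := by have := mem_range.mp hi; omega
        apply mul_le_mul (hB i) (pow_le_pow_right₀ hn this) (by positivity) hB0
    _ = (g.natDegree + 1) * (B * |n| ^ D) := by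
        rw [sum_const, card_range, nsmul_eq_mul]; push_cast; ring
    _ ≤ (D + 1) * B * |n| ^ D := by
        have h1 : 0 ≤ B * |n| ^ D := by positivity
        have h2 : (g.natDegree : ℤ) ≤ D := by exact_mod_cast hD
        nlinarith

/-- lower bound for the values of a polynomial -/
theorem eval_lower (g : ℤ[X]) (D : ℕ) (hd : 1 ≤ g.natDegree) (hD : g.natDegree ≤ D) (B B₀ : ℤ)
    (hB : ∀ i, 1 ≤ i → |g.coeff i| ≤ B) (hB₀ : |g.coeff 0| ≤ B₀) (n : ℤ) (hn : 1 ≤ |n|)
    (hn2 : 2 * (D * B) ≤ |n|) :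
    |n| - 2 * B₀ ≤ 2 * |g.eval n| := by
  have hBnn : 0 ≤ B := (abs_nonneg _).trans (hB 1 le_rfl)
  obtain ⟨e, he⟩ : ∃ e, g.natDegree = e + 1 := ⟨g.natDegree - 1, by omega⟩
  have hlc : 1 ≤ |g.coeff (e + 1)| := by
    rw [← he]
    apply Int.one_le_abs
    rw [← Polynomial.leadingCoeff, Ne, Polynomial.leadingCoeff_eq_zero]
    rintro rfl
    simp at hd
  have h1 : g.eval n = (∑ i ∈ range e, g.coeff (i + 1) * n ^ (i + 1)) + g.coeff 0 +
      g.coeff (e + 1) * n ^ (e + 1) := by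
    rw [Polynomial.eval_eq_sum_range, he, sum_range_succ, sum_range_succ']
    ring
  have h2 : |∑ i ∈ range e, g.coeff (i + 1) * n ^ (i + 1)| ≤ D * B * |n| ^ e := by
    calc |∑ i ∈ range e, g.coeff (i + 1) * n ^ (i + 1)|
        ≤ ∑ i ∈ range e, |g.coeff (i + 1) * n ^ (i + 1)| := abs_sum_le_sum_abs _ _
      _ ≤ ∑ _i ∈ range e, B * |n| ^ e := by
          refine sum_le_sum fun i hi => ?_
          rw [abs_mul, abs_pow]
          have : i + 1 ≤ e := by have := mem_range.mp hi; omega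
          apply mul_le_mul (hB _ (by omega)) (pow_le_pow_right₀ hn this) (by positivity) hBnn
      _ = e * (B * |n| ^ e) := by
          rw [sum_const, card_range, nsmul_eq_mul]
      _ ≤ D * B * |n| ^ e := by
          have h1 : 0 ≤ B * |n| ^ e := by positivity
          have h2 : (e : ℤ) ≤ D := by have : e ≤ D := by omega
                                      exact_mod_cast this
          nlinarith
  have h3 : |n| ^ e * |n| ≤ |g.coeff (e + 1) * n ^ (e + 1)| := by
    rw [abs_mul, abs_pow, pow_succ]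
    have : 0 ≤ |n| ^ e * |n| := by positivity
    nlinarith
  have h4 : 1 ≤ |n| ^ e := one_le_pow₀ hn
  have h5 : |g.coeff (e + 1) * n ^ (e + 1)| ≤ |g.eval n| +
      |∑ i ∈ range e, g.coeff (i + 1) * n ^ (i + 1)| + |g.coeff 0| := by
    have : g.coeff (e + 1) * n ^ (e + 1) = g.eval n -
        (∑ i ∈ range e, g.coeff (i + 1) * n ^ (i + 1)) - g.coeff 0 := by rw [h1]; ring
    rw [this]
    exact (abs_sub _ _).trans (add_le_add_left (abs_sub _ _) _)
  nlinarith

/-- splitting the contribution of a prime -/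
theorem fac_le (m p κ V : ℕ) (hp : p.Prime) (hm : m ≠ 0) (hmV : m ≤ V) :
    (m.factorization p : ℝ) * Real.log p ≤
      (if p ∣ m then κ * Real.log p else 0) + (if p ^ (κ + 1) ∣ m then Real.log V else 0) := by
  have hp1 : 1 < p := hp.one_lt
  have hp0 : (0 : ℝ) < p := by exact_mod_cast hp.pos
  have hlp : 0 < Real.log p := Real.log_pos (by exact_mod_cast hp1)
  have hV1 : 1 ≤ V := by omega
  have hlV : 0 ≤ Real.log V := Real.log_nonneg (by exact_mod_cast hV1)
  by_cases h1 : p ∣ m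
  · rw [if_pos h1]
    by_cases h2 : p ^ (κ + 1) ∣ m
    · rw [if_pos h2]
      have h3 : p ^ (m.factorization p) ≤ V :=
        (Nat.le_of_dvd (Nat.pos_of_ne_zero hm) (Nat.ordProj_dvd m p)).trans hmV
      have h4 : (m.factorization p : ℝ) * Real.log p ≤ Real.log V := by
        rw [← Real.log_pow]
        apply Real.log_le_log (by positivity)
        exact_mod_cast h3
      have h5 : 0 ≤ (κ : ℝ) * Real.log p := by positivity
      linarith
    · rw [if_neg h2, add_zero]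
      have h3 : m.factorization p ≤ κ := by
        by_contra hcon
        push Not at hcon
        exact h2 ((pow_dvd_pow p hcon).trans (Nat.ordProj_dvd m p))
      have h4 : (m.factorization p : ℝ) ≤ κ := by exact_mod_cast h3
      exact mul_le_mul_of_nonneg_right h4 hlp.le
  · rw [Nat.factorization_eq_zero_of_not_dvd h1, if_neg h1]
    simp only [Nat.cast_zero, zero_mul, zero_add]
    split_ifs
    · exact hlV
    · exact le_rfl

theorem log_eq (m : ℕ) (hm : m ≠ 0) (U : Finset ℕ) (hU : ∀ p, p.Prime → p ∣ m → p ∈ U) :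
    Real.log m = ∑ p ∈ U, (m.factorization p : ℝ) * Real.log p := by
  have h1 : (m : ℝ) = ∏ p ∈ m.primeFactors, (p : ℝ) ^ m.factorization p := by
    have := Nat.prod_factorization_pow_eq_self hm
    conv_lhs => rw [← this]
    rw [Finsupp.prod, Nat.support_factorization]
    push_cast
    rfl
  rw [h1, Real.log_prod (fun p hp => by
    have := (Nat.prime_of_mem_primeFactors hp).pos
    positivity)]
  have h2 : m.primeFactors ⊆ U := fun p hp =>
    hU p (Nat.prime_of_mem_primeFactors hp) (Nat.dvd_of_mem_primeFactors hp)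
  rw [← sum_subset h2 (fun p _ hp => by
    have : m.factorization p = 0 := by
      rw [← Finsupp.notMem_support_iff, Nat.support_factorization]
      exact hp
    rw [this]; simp)]
  exact sum_congr rfl fun p _ => Real.log_pow _ _

/-- the main inequality when all prime factors lie in `U` -/
theorem key_ineq (g : ℤ[X]) (hg : 1 ≤ g.natDegree) (N A E u V i D : ℕ)
    (hAE : g.natDegree ≤ E) (hA : |g.leadingCoeff| ≤ E) (hD : g.natDegree ≤ D)
    (U : Finset ℕ) (hUp : ∀ p ∈ U, p.Prime) (hUc : U.card ≤ u)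
    (hV : ∀ n ∈ Ioc N (N + N), (g.eval (n : ℤ)).natAbs ≤ V)
    (hA' : ∀ n ∈ Ioc N (N + N), A ≤ (g.eval (n : ℤ)).natAbs) (hA0 : 0 < A)
    (hall : ∀ n ∈ Ioc N (N + N), ∀ p : ℕ, p.Prime → (p : ℤ) ∣ g.eval (n : ℤ) → p ∈ U) :
    (N : ℝ) * Real.log A ≤
      ((i * (D + 1) ^ 2 + E : ℕ) : ℝ) * (E * (N * (∑ p ∈ U, Real.log p / p) +
        ∑ p ∈ U, Real.log p)) +
      Real.log V * (E * (N * (∑ p ∈ U, (1 : ℝ) / (p : ℝ) ^ i) + u)) := by
  set κ : ℕ := i * (D + 1) ^ 2 + E with hκ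
  have hE1 : 1 ≤ E := by omega
  have hlV : 0 ≤ Real.log V := Real.log_natCast_nonneg V
  have h1 : (N : ℝ) * Real.log A ≤ ∑ n ∈ Ioc N (N + N),
      Real.log ((g.eval (n : ℤ)).natAbs : ℝ) := by
    calc (N : ℝ) * Real.log A = ∑ n ∈ Ioc N (N + N), Real.log A := by
          rw [sum_const, Nat.card_Ioc, nsmul_eq_mul]; simp
      _ ≤ _ := sum_le_sum fun n hn => Real.log_le_log (by exact_mod_cast hA0)
          (by exact_mod_cast hA' n hn)
  have h2 : ∀ n ∈ Ioc N (N + N), Real.log ((g.eval (n : ℤ)).natAbs : ℝ) ≤ ∑ p ∈ U,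
      ((if (p : ℤ) ∣ g.eval (n : ℤ) then κ * Real.log p else 0) +
        (if ((p ^ (κ + 1) : ℕ) : ℤ) ∣ g.eval (n : ℤ) then Real.log V else 0)) := by
    intro n hn
    have hm : (g.eval (n : ℤ)).natAbs ≠ 0 := by
      have := hA' n hn
      omega
    rw [log_eq _ hm U (fun p hp hd => hall n hn p hp (Int.natCast_dvd.mpr hd))]
    refine sum_le_sum fun p hp => ?_
    have := fac_le (g.eval (n : ℤ)).natAbs p κ V (hUp p hp) hm (hV n hn)
    simpa only [Int.natCast_dvd] using this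
  have h3 := h1.trans (sum_le_sum h2)
  rw [sum_comm] at h3
  refine h3.trans ?_
  have h4 : ∀ p ∈ U, ∑ n ∈ Ioc N (N + N),
      ((if (p : ℤ) ∣ g.eval (n : ℤ) then κ * Real.log p else 0) +
        (if ((p ^ (κ + 1) : ℕ) : ℤ) ∣ g.eval (n : ℤ) then Real.log V else 0)) ≤
      κ * (E * (N * (Real.log p / p) + Real.log p)) +
        Real.log V * (E * (N * ((1 : ℝ) / (p : ℝ) ^ i) + 1)) := by
    intro p hp
    have hpp := hUp p hp
    have hp0 : (0 : ℝ) < p := by exact_mod_cast hpp.pos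
    have hlp : 0 ≤ Real.log p := Real.log_natCast_nonneg p
    rw [sum_add_distrib, ← sum_filter, ← sum_filter, sum_const, sum_const, nsmul_eq_mul,
      nsmul_eq_mul]
    have a1 := count_prime g hg N N p E hpp hA hAE
    have a2 := count_big g hg N N (p ^ i) (p ^ (κ + 1)) E (pow_pos hpp.pos i) hA (by
      calc E * (p ^ i) ^ ((g.natDegree + 1) ^ 2) ≤ E * (p ^ i) ^ ((D + 1) ^ 2) := by
            apply Nat.mul_le_mul_left
            apply Nat.pow_le_pow_right (pow_pos hpp.pos i)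
            exact Nat.pow_le_pow_left (by omega) 2
        _ < p ^ (E + 1) * (p ^ i) ^ ((D + 1) ^ 2) := by
            apply Nat.mul_lt_mul_of_pos_right _ (pow_pos (pow_pos hpp.pos i) _)
            calc E < 2 ^ E := Nat.lt_two_pow_self
              _ ≤ p ^ E := Nat.pow_le_pow_left hpp.two_le E
              _ ≤ p ^ (E + 1) := Nat.pow_le_pow_right hpp.pos (by omega)
        _ = p ^ (κ + 1) := by
            rw [← pow_mul, ← pow_add]
            congr 1
            rw [hκ]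
            ring)
    have b1 : ((((Ioc N (N + N)).filter (fun n : ℕ => (p : ℤ) ∣ g.eval (n : ℤ))).card : ℕ) : ℝ) ≤
        E * (N * ((1 : ℝ) / p) + 1) := by
      calc ((((Ioc N (N + N)).filter (fun n : ℕ => (p : ℤ) ∣ g.eval (n : ℤ))).card : ℕ) : ℝ)
          ≤ ((E * (N / p + 1) : ℕ) : ℝ) := by exact_mod_cast a1
        _ = E * (((N / p : ℕ) : ℝ) + 1) := by push_cast; ring
        _ ≤ E * (N * ((1 : ℝ) / p) + 1) := by
            have : ((N / p : ℕ) : ℝ) ≤ N * ((1 : ℝ) / p) := by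
              rw [mul_one_div]
              exact Nat.cast_div_le
            gcongr
    have b2 : ((((Ioc N (N + N)).filter (fun n : ℕ => ((p ^ (κ + 1) : ℕ) : ℤ) ∣
        g.eval (n : ℤ))).card : ℕ) : ℝ) ≤ E * (N * ((1 : ℝ) / (p : ℝ) ^ i) + 1) := by
      calc ((((Ioc N (N + N)).filter (fun n : ℕ => ((p ^ (κ + 1) : ℕ) : ℤ) ∣
            g.eval (n : ℤ))).card : ℕ) : ℝ)
          ≤ ((E * (N / p ^ i + 1) : ℕ) : ℝ) := by
            exact_mod_cast a2.trans (Nat.mul_le_mul_right _ hAE)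
        _ = E * (((N / p ^ i : ℕ) : ℝ) + 1) := by push_cast; ring
        _ ≤ E * (N * ((1 : ℝ) / (p : ℝ) ^ i) + 1) := by
            have : ((N / p ^ i : ℕ) : ℝ) ≤ N * ((1 : ℝ) / (p : ℝ) ^ i) := by
              rw [mul_one_div]
              refine Nat.cast_div_le.trans (le_of_eq ?_)
              push_cast
              rfl
            gcongr
    calc _ ≤ E * (N * ((1 : ℝ) / p) + 1) * (κ * Real.log p) +
          E * (N * ((1 : ℝ) / (p : ℝ) ^ i) + 1) * Real.log V :=
          add_le_add (mul_le_mul_of_nonneg_right b1 (by positivity))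
            (mul_le_mul_of_nonneg_right b2 hlV)
      _ = _ := by ring
  refine (sum_le_sum h4).trans ?_
  rw [sum_add_distrib, ← mul_sum, ← mul_sum, ← mul_sum, ← mul_sum, sum_add_distrib,
    sum_add_distrib, ← mul_sum, ← mul_sum, sum_const, nsmul_eq_mul, mul_one]
  have hc : (U.card : ℝ) ≤ u := by exact_mod_cast hUc
  gcongr

/-- sum of `log p / p` over a finite set of primes -/
theorem log_sum : ∃ C : ℝ, 0 ≤ C ∧ ∀ (U : Finset ℕ) (u : ℕ), 3 ≤ u → U.card ≤ u →
    (∀ p ∈ U, p.Prime) → ∑ p ∈ U, Real.log p / p ≤ 2 * Real.log u + C := by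
  obtain ⟨C, hC⟩ := Pool.Agent.Helper256.KM.mertens_log
  have hC0 : 0 ≤ C := (abs_nonneg _).trans (hC 1 le_rfl)
  refine ⟨C, hC0, fun U u hu hU hp => ?_⟩
  have hu0 : (0 : ℝ) < u := by exact_mod_cast (by omega : 0 < u)
  have hlu : 0 ≤ Real.log u := Real.log_natCast_nonneg u
  rw [← sum_filter_add_sum_filter_not U (fun p => p ≤ u)]
  have h1 : ∑ p ∈ U with p ≤ u, Real.log p / p ≤ Real.log u + C := by
    have h2 : (U.filter (fun p => p ≤ u)) ⊆ (Icc 1 u).filter Nat.Prime := by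
      intro p h
      rw [mem_filter] at h ⊢
      exact ⟨mem_Icc.mpr ⟨(hp p h.1).one_lt.le, h.2⟩, hp p h.1⟩
    refine (sum_le_sum_of_subset_of_nonneg h2 fun p _ _ =>
      div_nonneg (Real.log_natCast_nonneg p) (Nat.cast_nonneg p)).trans ?_
    have h3 := (abs_le.mp (hC u (by omega))).2
    linarith
  have h2 : ∑ p ∈ U with ¬ p ≤ u, Real.log p / p ≤ Real.log u := by
    calc ∑ p ∈ U with ¬ p ≤ u, Real.log p / p ≤ ∑ _p ∈ U with ¬ _p ≤ u, Real.log u / u := by
          refine sum_le_sum fun p h => ?_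
          rw [mem_filter] at h
          push Not at h
          have e3 : (3 : ℝ) ≤ u := by exact_mod_cast hu
          have e1 : Real.exp 1 ≤ u := by
            have := Real.exp_one_lt_d9
            linarith
          have e2 : (u : ℝ) ≤ p := by exact_mod_cast h.2.le
          exact Real.log_div_self_antitoneOn e1 (e1.trans e2) e2
      _ = ((U.filter (fun p => ¬ p ≤ u)).card : ℝ) * (Real.log u / u) := by
          rw [sum_const, nsmul_eq_mul]
      _ ≤ u * (Real.log u / u) := by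
          apply mul_le_mul_of_nonneg_right _ (div_nonneg hlu hu0.le)
          exact_mod_cast (card_le_card (filter_subset _ _)).trans hU
      _ = Real.log u := by field_simp
  linarith

/-- sum of `p ^ (-i)` -/
theorem pow_sum (U : Finset ℕ) (hU : ∀ p ∈ U, p.Prime) (j : ℕ) :
    ∑ p ∈ U, (1 : ℝ) / (p : ℝ) ^ (j + 2) ≤ 1 / 2 ^ j := by
  have h1 : ∑ p ∈ U, (1 : ℝ) / (p : ℝ) ^ (j + 2) ≤ ∑ p ∈ U, (1 / 2 ^ j) * ((p : ℝ) ^ 2)⁻¹ := by
    refine sum_le_sum fun p hp => ?_
    have h2 : (2 : ℝ) ≤ p := by exact_mod_cast (hU p hp).two_le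
    rw [pow_add, ← one_div_mul_one_div, ← one_div ((p : ℝ) ^ 2)]
    apply mul_le_mul_of_nonneg_right _ (by positivity)
    apply one_div_le_one_div_of_le (by positivity)
    gcongr
  refine h1.trans ?_
  rw [← mul_sum]
  have h3 : ∑ p ∈ U, ((p : ℝ) ^ 2)⁻¹ ≤ 1 := by
    set Q := 1 + U.sup id with hQ
    have e1 : U ⊆ Ioc 1 Q := by
      intro p hp
      rw [mem_Ioc]
      refine ⟨(hU p hp).one_lt, ?_⟩
      have : id p ≤ U.sup id := le_sup hp
      simp only [id] at this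
      omega
    refine (sum_le_sum_of_subset_of_nonneg e1 fun _ _ _ => by positivity).trans ?_
    refine (sum_Ioc_inv_sq_le_sub (by omega) (by omega)).trans ?_
    have : (0 : ℝ) ≤ ((Q : ℕ) : ℝ)⁻¹ := by positivity
    push_cast
    linarith
  calc (1 / 2 ^ j) * ∑ p ∈ U, ((p : ℝ) ^ 2)⁻¹ ≤ (1 / 2 ^ j) * 1 := by gcongr
    _ = 1 / 2 ^ j := mul_one _

/-- **Lemma K**: a prime factor outside a given set of at most `u` primes -/
theorem lemK (D A₀ : ℕ) : ∃ a' : ℕ, 1 ≤ a' ∧ ∃ u₀ : ℕ, ∀ u : ℕ, u₀ ≤ u → ∀ g : ℤ[X],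
    1 ≤ g.natDegree → g.natDegree ≤ D → (∀ i, 1 ≤ i → |g.coeff i| ≤ A₀) → |g.coeff 0| ≤ u →
    ∀ U : Finset ℕ, (∀ p ∈ U, p.Prime) → U.card ≤ u → ∃ q b : ℕ, q.Prime ∧ q ∉ U ∧
      (q : ℤ) ∣ g.eval (b : ℤ) ∧ q ≤ u ^ a' := by
  obtain ⟨C, hC0, hC⟩ := log_sum
  obtain ⟨E, hE⟩ : ∃ E : ℕ, E = D + A₀ + 1 := ⟨_, rfl⟩
  obtain ⟨j, hj⟩ : ∃ j : ℕ, j = 8 * (E * (D + 2)) := ⟨_, rfl⟩
  obtain ⟨κ, hκ⟩ : ∃ κ : ℕ, κ = (j + 2) * (D + 1) ^ 2 + E := ⟨_, rfl⟩
  obtain ⟨a, ha⟩ : ∃ a : ℕ, a = ⌈2 * (κ : ℝ) * E * (2 + C)⌉₊ + 2 := ⟨_, rfl⟩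
  have ha2 : 2 ≤ a := by omega
  have haC : 2 * (κ : ℝ) * E * (2 + C) < a := by
    have h1 : 2 * (κ : ℝ) * E * (2 + C) ≤ (⌈2 * (κ : ℝ) * E * (2 + C)⌉₊ : ℝ) := Nat.le_ceil _
    have h2 : (a : ℝ) = (⌈2 * (κ : ℝ) * E * (2 + C)⌉₊ : ℝ) + 2 := by rw [ha]; push_cast; ring
    linarith
  have hE1 : (1 : ℝ) ≤ E := by
    have : 1 ≤ E := by omega
    exact_mod_cast this
  refine ⟨a * (D + 2), Nat.mul_pos (by omega) (by omega),
    max (2 * (κ + 1) * (E * (D + 2))) (max ((D + 1) * 8 ^ D) (max (2 * D * A₀ + A₀) 21)), ?_⟩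
  intro u hu g hg hgD hgA hg0 U hUp hUc
  have hu1 : 2 * (κ + 1) * (E * (D + 2)) ≤ u := (le_max_left _ _).trans hu
  have hu2 : (D + 1) * 8 ^ D ≤ u := (le_max_left _ _).trans ((le_max_right _ _).trans hu)
  have hu3 : 2 * D * A₀ + A₀ ≤ u :=
    (le_max_left _ _).trans ((le_max_right _ _).trans ((le_max_right _ _).trans hu))
  have hu4 : 21 ≤ u :=
    (le_max_right _ _).trans ((le_max_right _ _).trans ((le_max_right _ _).trans hu))
  have hu0 : (0 : ℝ) < u := by exact_mod_cast (by omega : 0 < u)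
  set l := Real.log u with hl
  have hl1 : 1 ≤ l := by
    rw [hl, Real.le_log_iff_exp_le hu0]
    have e1 := Real.exp_one_lt_d9
    have e4 : (21 : ℝ) ≤ u := by exact_mod_cast hu4
    linarith
  obtain ⟨K, hK⟩ : ∃ K : ℕ, K = u ^ a := ⟨_, rfl⟩
  have hKu2 : u * u ≤ K := by
    calc u * u = u ^ 2 := by ring
      _ ≤ u ^ a := Nat.pow_le_pow_right (by omega) ha2
      _ = K := hK.symm
  have hKu : u ≤ K := le_trans (Nat.le_mul_self u) hKu2
  have hK0 : 0 < K := by omega
  have hK0' : (0 : ℝ) < K := by exact_mod_cast hK0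
  have hlK : Real.log K = a * l := by rw [hK]; push_cast; rw [Real.log_pow]
  obtain ⟨V, hV⟩ : ∃ V : ℕ, V = (D + 1) * u * (8 * K) ^ D := ⟨_, rfl⟩
  have hV0 : 0 < V := by rw [hV]; positivity
  have hVK : V ≤ K ^ (D + 2) := by
    calc V = ((D + 1) * 8 ^ D) * u * K ^ D := by rw [hV, mul_pow]; ring
      _ ≤ K * K * K ^ D := by
          apply Nat.mul_le_mul_right
          exact Nat.mul_le_mul (hu2.trans hKu) hKu
      _ = K ^ (D + 2) := by ring
  have hlV : Real.log V ≤ (D + 2) * (a * l) := by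
    have e1 : (V : ℝ) ≤ (K : ℝ) ^ (D + 2) := by exact_mod_cast hVK
    calc Real.log V ≤ Real.log ((K : ℝ) ^ (D + 2)) :=
          Real.log_le_log (by exact_mod_cast hV0) e1
      _ = (D + 2) * (a * l) := by rw [Real.log_pow, hlK]; push_cast; ring
  by_contra hcon
  push Not at hcon
  have hval : ∀ n ∈ Ioc (4 * K) (4 * K + 4 * K), K ≤ (g.eval (n : ℤ)).natAbs ∧
      (g.eval (n : ℤ)).natAbs ≤ V := by
    intro n hn
    rw [mem_Ioc] at hn
    have hn1 : (1 : ℤ) ≤ |(n : ℤ)| := by rw [Nat.abs_cast]; omega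
    constructor
    · have h1 := eval_lower g D hg hgD A₀ u hgA hg0 n hn1 (by
        rw [Nat.abs_cast]
        have : 2 * (D * A₀) ≤ n := by nlinarith
        exact_mod_cast this)
      rw [Nat.abs_cast] at h1
      have h2 : ((g.eval (n : ℤ)).natAbs : ℤ) = |g.eval (n : ℤ)| := Int.natCast_natAbs _
      omega
    · have h1 := eval_upper g D hgD u (by
        intro i
        rcases Nat.eq_zero_or_pos i with h | h
        · rw [h]; exact hg0
        · refine (hgA i h).trans ?_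
          have : A₀ ≤ u := by omega
          exact_mod_cast this) n hn1
      rw [Nat.abs_cast] at h1
      have h2 : ((g.eval (n : ℤ)).natAbs : ℤ) = |g.eval (n : ℤ)| := Int.natCast_natAbs _
      have h3 : (D + 1) * u * n ^ D ≤ V := by
        rw [hV]
        apply Nat.mul_le_mul_left
        exact Nat.pow_le_pow_left (by omega) D
      have h4 : ((g.eval (n : ℤ)).natAbs : ℤ) ≤ ((D + 1) * u * n ^ D : ℕ) := by
        rw [h2]; push_cast; exact h1
      have h5 : (g.eval (n : ℤ)).natAbs ≤ (D + 1) * u * n ^ D := by exact_mod_cast h4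
      exact h5.trans h3
  have hall : ∀ n ∈ Ioc (4 * K) (4 * K + 4 * K), ∀ p : ℕ, p.Prime →
      (p : ℤ) ∣ g.eval (n : ℤ) → p ∈ U.filter (fun p => p ≤ V) := by
    intro n hn p hp hd
    have h2 := hval n hn
    have h3 : p ≤ V := by
      refine le_trans (Nat.le_of_dvd (by omega) (Int.natCast_dvd.mp hd)) h2.2
    rw [mem_filter]
    refine ⟨?_, h3⟩
    by_contra hpU
    have h1 := hcon p n hp hpU hd
    have h4 : p ≤ u ^ (a * (D + 2)) := by
      calc p ≤ V := h3
        _ ≤ K ^ (D + 2) := hVK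
        _ = u ^ (a * (D + 2)) := by rw [hK, ← pow_mul]
    omega
  have hUp' : ∀ p ∈ U.filter (fun p => p ≤ V), p.Prime := fun p hp => hUp p (mem_filter.mp hp).1
  have hUc' : (U.filter (fun p => p ≤ V)).card ≤ u := (card_le_card (filter_subset _ _)).trans hUc
  have hmain := key_ineq g hg (4 * K) K E u V (j + 2) D (by omega)
    (by
      refine (hgA _ hg).trans ?_
      have : A₀ ≤ E := by omega
      exact_mod_cast this) hgD
    (U.filter (fun p => p ≤ V)) hUp' hUc' (fun n hn => (hval n hn).2)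
    (fun n hn => (hval n hn).1) hK0 hall
  rw [← hκ] at hmain
  have hs1 := hC (U.filter (fun p => p ≤ V)) u (by omega) hUc' hUp'
  rw [← hl] at hs1
  have hs2 := pow_sum (U.filter (fun p => p ≤ V)) hUp' j
  have hlV0 : 0 ≤ Real.log V := Real.log_natCast_nonneg V
  have hs3 : ∑ p ∈ U.filter (fun p => p ≤ V), Real.log p ≤ u * ((D + 2) * (a * l)) := by
    calc ∑ p ∈ U.filter (fun p => p ≤ V), Real.log p
        ≤ ∑ _p ∈ U.filter (fun p => p ≤ V), Real.log V := by
          refine sum_le_sum fun p hp => ?_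
          apply Real.log_le_log (by exact_mod_cast (hUp' p hp).pos)
          exact_mod_cast (mem_filter.mp hp).2
      _ = ((U.filter (fun p => p ≤ V)).card : ℝ) * Real.log V := by
          rw [sum_const, nsmul_eq_mul]
      _ ≤ u * ((D + 2) * (a * l)) := by
          apply mul_le_mul _ hlV hlV0 hu0.le
          exact_mod_cast hUc'
  obtain ⟨N, hN⟩ : ∃ N : ℝ, N = ((4 * K : ℕ) : ℝ) := ⟨_, rfl⟩
  rw [← hN] at hmain
  have hN0 : 0 < N := by rw [hN]; push_cast; positivity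
  have hNu : 4 * (u : ℝ) * u ≤ N := by
    rw [hN]
    have : 4 * u * u ≤ 4 * K := by nlinarith
    exact_mod_cast this
  rw [hlK] at hmain
  have ha0 : (0 : ℝ) < a := by exact_mod_cast (by omega : 0 < a)
  obtain ⟨Q, hQ⟩ : ∃ Q : ℝ, Q = (E : ℝ) * (D + 2) * (a * l) := ⟨_, rfl⟩
  have hal0 : 0 < (a : ℝ) * l := by positivity
  have hQ0 : 0 ≤ Q := by rw [hQ]; positivity
  have hκ0 : (0 : ℝ) ≤ κ := Nat.cast_nonneg _
  -- the first term
  have t1 : (κ : ℝ) * (E * (N * (∑ p ∈ U.filter (fun p => p ≤ V), Real.log p / p) +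
      ∑ p ∈ U.filter (fun p => p ≤ V), Real.log p)) ≤
      κ * E * (2 * l + C) * N + κ * u * Q := by
    calc _ ≤ (κ : ℝ) * (E * (N * (2 * l + C) + u * ((D + 2) * (a * l)))) := by gcongr
      _ = _ := by rw [hQ]; ring
  have t2 : Real.log V * (E * (N * (∑ p ∈ U.filter (fun p => p ≤ V),
      (1 : ℝ) / (p : ℝ) ^ (j + 2)) + u)) ≤ Q * (N * (1 / 2 ^ j) + u) := by
    calc _ ≤ ((D + 2) * (a * l)) * (E * (N * (1 / 2 ^ j) + u)) := by gcongr
      _ = _ := by rw [hQ]; ring
  have t3 : Q * (1 / 2 ^ j) ≤ a * l / 8 := by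
    have e1 : (j : ℝ) ≤ 2 ^ j := by exact_mod_cast (Nat.lt_two_pow_self (n := j)).le
    have e2 : (j : ℝ) = 8 * (E * (D + 2)) := by rw [hj]; push_cast; ring
    have e3 : (0 : ℝ) < 2 ^ j := by positivity
    rw [mul_one_div, div_le_div_iff₀ e3 (by norm_num)]
    calc Q * 8 = (8 * (E * (D + 2))) * (a * l) := by rw [hQ]; ring
      _ = j * (a * l) := by rw [e2]
      _ ≤ 2 ^ j * (a * l) := by gcongr
      _ = a * l * 2 ^ j := by ring
  have t4 : (κ + 1) * u * Q ≤ (a * l / 8) * N := by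
    have e1 : 2 * ((κ : ℝ) + 1) * (E * (D + 2)) ≤ u := by exact_mod_cast hu1
    calc (κ + 1) * u * Q = (2 * ((κ : ℝ) + 1) * (E * (D + 2))) * (u * (a * l) / 2) := by
          rw [hQ]; ring
      _ ≤ u * (u * (a * l) / 2) := by gcongr
      _ = (a * l / 8) * (4 * u * u) := by ring
      _ ≤ (a * l / 8) * N := by gcongr
  have t5 : N * (a * l) ≤ (κ * E * (2 * l + C) + a * l / 4) * N := by
    have : Q * (N * (1 / 2 ^ j) + u) = (Q * (1 / 2 ^ j)) * N + u * Q := by ring
    have e2 : (Q * (1 / 2 ^ j)) * N ≤ (a * l / 8) * N := by gcongr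
    have e3 : (κ + 1) * u * Q = κ * u * Q + u * Q := by ring
    linarith
  have t6 : a * l ≤ κ * E * (2 * l + C) + a * l / 4 := by
    have : N * (a * l) ≤ N * (κ * E * (2 * l + C) + a * l / 4) := by linarith
    exact le_of_mul_le_mul_left this hN0
  have t7 : κ * E * (2 * l + C) ≤ κ * E * (2 + C) * l := by
    have e0 : C ≤ C * l := by nlinarith
    have e1 : 2 * l + C ≤ (2 + C) * l := by linarith
    calc κ * E * (2 * l + C) ≤ κ * E * ((2 + C) * l) := by gcongr
      _ = _ := by ring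
  have t8 : 2 * (κ : ℝ) * E * (2 + C) * l < a * l := by
    apply mul_lt_mul_of_pos_right haC
    linarith
  linarith

end Pool.Agent.TH621.RP
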