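import Pool.Agent.TH621.RP.Cover
import Pool.Agent.TH621.RP.Ana

set_option autoImplicit false

/-! # Long prime-free intervals around all polynomial values -/

namespace Pool.Agent.TH621.RP

open Finset Polynomial

theorem crt (S : Finset ℕ) (hS : ∀ p ∈ S, p.Prime) (a : ℕ → ℕ) :
    ∃ b : ℕ, ∀ p ∈ S, b ≡ a p [MOD p] := by
  have hs : ∀ i ∈ S, (id i : ℕ) ≠ 0 := fun i hi => (hS i hi).ne_zero
  have pp : Set.Pairwise ((S : Finset ℕ) : Set ℕ) (Function.onFun Nat.Coprime id) := by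
    intro i hi j hj hij
    exact (Nat.coprime_primes (hS i (mem_coe.1 hi)) (hS j (mem_coe.1 hj))).2 hij
  exact ⟨Nat.chineseRemainderOfFinset a id _ hs pp,
    fun p hp => (Nat.chineseRemainderOfFinset a id _ hs pp).2 p hp⟩

/-- a point of the residue class in an interval -/
theorem pick (M b : ℤ) (W : ℕ) (hW : 0 < W) : ∃ n : ℤ, M < n ∧ n ≤ M + W ∧ n ≡ b [ZMOD W] := by
  have hW' : (0 : ℤ) < W := by exact_mod_cast hW
  refine ⟨M + 1 + (b - M - 1) % W, ?_, ?_, ?_⟩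
  · have := Int.emod_nonneg (b - M - 1) hW'.ne'
    linarith
  · have := Int.emod_lt_of_pos (b - M - 1) hW'
    linarith
  · have h1 : (b - M - 1) % W ≡ b - M - 1 [ZMOD W] := Int.mod_modEq _ _
    have h2 := h1.add_left (M + 1)
    have e : M + 1 + (b - M - 1) = b := by ring
    rwa [e] at h2

/-- a point of the residue class in `(M, M + Y]` far from zero -/
theorem pick_far (M b : ℤ) (W : ℕ) (hW : 0 < W) (Y : ℝ) (hY : 100 ≤ Y) (hWY : (W : ℝ) ≤ Y / 4) :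
    ∃ n : ℤ, M < n ∧ (n : ℝ) ≤ M + Y ∧ n ≡ b [ZMOD W] ∧ Y / 8 ≤ |(n : ℝ)| := by
  by_cases hM : -(Y / 2) ≤ (M : ℝ)
  · obtain ⟨n, h1, h2, h3⟩ := pick (M + ⌊3 * Y / 4⌋) b W hW
    have f1 := Int.floor_le (3 * Y / 4)
    have f2 := Int.lt_floor_add_one (3 * Y / 4)
    have h1' : (M : ℝ) + (⌊3 * Y / 4⌋ : ℤ) < n := by exact_mod_cast h1
    have h2' : (n : ℝ) ≤ (M : ℝ) + (⌊3 * Y / 4⌋ : ℤ) + W := by exact_mod_cast h2
    refine ⟨n, ?_, by linarith, h3, ?_⟩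
    · have : (M : ℝ) < n := by linarith
      exact_mod_cast this
    · rw [abs_of_nonneg (by linarith)]
      linarith
  · push Not at hM
    obtain ⟨n, h1, h2, h3⟩ := pick M b W hW
    have h1' : (M : ℝ) < n := by exact_mod_cast h1
    have h2' : (n : ℝ) ≤ (M : ℝ) + W := by exact_mod_cast h2
    refine ⟨n, h1, by linarith, h3, ?_⟩
    rw [abs_of_neg (by linarith)]
    linarith

theorem main (𝓕 : Finset ℤ[X]) (h𝓕 : ∀ f ∈ 𝓕, 1 ≤ f.natDegree) :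
    ∃ (c : ℝ) (A : ℕ), 0 < c ∧ ∃ Y₀ : ℝ, ∀ Y : ℝ, Y₀ ≤ Y → ∀ M : ℤ,
    ∃ n : ℤ, M < n ∧ (n : ℝ) ≤ M + Y ∧ ∀ f ∈ 𝓕, ∀ m : ℤ,
      |(m : ℝ) - (f.eval n : ℤ)| ≤ c * rankin Y →
      (∃ p : ℕ, p.Prime ∧ (p : ℝ) ≤ (Real.log Y) ^ A ∧ (p : ℤ) ∣ m) ∧
        ¬ Prime m := by
  obtain ⟨C, A, hC, x₀, hcov⟩ := cover 𝓕 h𝓕
  obtain ⟨c, hc, Y₁, hana⟩ := anaR (x₀ := x₀) hC
  set E : ℕ := 𝓕.sup (fun f => f.natDegree) + 1 with hE
  set A₀ : ℕ := 𝓕.sup (fun f => ∑ i ∈ f.support, (f.coeff i).natAbs) + 1 with hA₀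
  have hfE : ∀ f ∈ 𝓕, f.natDegree ≤ E := by
    intro f hf
    have := le_sup (f := fun f : ℤ[X] => f.natDegree) hf
    omega
  have hfA : ∀ f ∈ 𝓕, ∀ i, |f.coeff i| ≤ A₀ := by
    intro f hf i
    have h1 := le_sup (f := fun f : ℤ[X] => ∑ i ∈ f.support, (f.coeff i).natAbs) hf
    have h2 : (f.coeff i).natAbs ≤ ∑ i ∈ f.support, (f.coeff i).natAbs := by
      by_cases hi : i ∈ f.support
      · exact single_le_sum (f := fun i => (f.coeff i).natAbs) (fun _ _ => Nat.zero_le _) hi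
      · rw [notMem_support_iff] at hi
        rw [hi]; simp
    have h3 : (f.coeff i).natAbs ≤ A₀ := by omega
    rw [Int.abs_eq_natAbs]
    exact_mod_cast h3
  obtain ⟨L₁, hend⟩ := ev_end A ((A₀ : ℝ) + 2 * (E * A₀) + 8)
  refine ⟨c, A, hc, max Y₁ (Real.exp L₁), fun Y hY M => ?_⟩
  have hY1 : Y₁ ≤ Y := (le_max_left _ _).trans hY
  have hY2 : Real.exp L₁ ≤ Y := (le_max_right _ _).trans hY
  have hY0 : 0 < Y := (Real.exp_pos _).trans_le hY2
  set L := Real.log Y with hL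
  have hLL : L₁ ≤ L := by rw [hL, Real.le_log_iff_exp_le hY0]; exact hY2
  have hYexp : Y = Real.exp L := (Real.exp_log hY0).symm
  set x := L / 10 with hx
  set F := c * rankin Y with hF
  obtain ⟨a1, -, a3, a4, a5, a6, a7, a8, a9, a10, a11⟩ := hana Y hY1 x F rfl rfl ⌊F⌋₊ rfl
  have he := hend L hLL
  rw [← hYexp] at he
  obtain ⟨𝓢, a, hS1, hS2, hS3⟩ := hcov x a5 ⌊F⌋₊ a7 a8
  obtain ⟨b, hb⟩ := crt 𝓢 (fun p hp => (hS1 p hp).1) a
  set W : ℕ := ∏ p ∈ 𝓢, p with hW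
  have hW0 : 0 < W := prod_pos fun p hp => (hS1 p hp).1.pos
  have hlogW : Real.log W ≤ L / 2 := by
    rw [hW, Nat.cast_prod, Real.log_prod (fun p hp => by
      have := (hS1 p hp).1.pos
      positivity)]
    refine hS2.trans ?_
    have e1 : Real.exp (Real.log x / 2) ≤ x := by
      have hx0 : 0 < x := by linarith
      calc Real.exp (Real.log x / 2) ≤ Real.exp (Real.log x) :=
            Real.exp_le_exp.mpr (by linarith)
        _ = x := Real.exp_log hx0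
    linarith
  have hexp2 : Real.exp (L / 2) ≤ Y / 4 := by
    rw [hYexp]
    have e2 : Real.exp L = Real.exp (L / 2) * Real.exp (L / 2) := by
      rw [← Real.exp_add]; congr 1; ring
    have e3 := Real.add_one_le_exp (L / 2)
    have e4 : 0 < Real.exp (L / 2) := Real.exp_pos _
    rw [e2]
    nlinarith
  have hWY : (W : ℝ) ≤ Y / 4 := by
    have hW0' : (0 : ℝ) < W := by exact_mod_cast hW0
    calc (W : ℝ) = Real.exp (Real.log W) := (Real.exp_log hW0').symm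
      _ ≤ Real.exp (L / 2) := Real.exp_le_exp.mpr hlogW
      _ ≤ Y / 4 := hexp2
  have hA₀0 : (0 : ℝ) ≤ A₀ := Nat.cast_nonneg _
  have hE0 : (0 : ℝ) ≤ E := Nat.cast_nonneg _
  have hEA0 : (0 : ℝ) ≤ E * A₀ := mul_nonneg hE0 hA₀0
  have hexpA : 0 < L ^ A := pow_pos (by linarith) A
  have hL2 : 0 ≤ L ^ 2 := sq_nonneg L
  obtain ⟨n, hn1, hn2, hn3, hn4⟩ := pick_far M b W hW0 Y (by linarith) hWY
  refine ⟨n, hn1, hn2, fun f hf m hm => ?_⟩
  have hres : ∀ p ∈ 𝓢, n ≡ (a p : ℤ) [ZMOD p] := by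
    intro p hp
    have h1 : (p : ℤ) ∣ (W : ℤ) := by
      have : p ∣ W := dvd_prod_of_mem _ hp
      exact_mod_cast this
    have h2 : n ≡ (b : ℤ) [ZMOD p] := hn3.of_dvd h1
    have h3 : (b : ℤ) ≡ (a p : ℤ) [ZMOD p] := by
      have := hb p hp
      exact (Int.natCast_modEq_iff).mpr this
    exact h2.trans h3
  have hkT : |m - f.eval n| ≤ (⌊F⌋₊ : ℕ) := by
    have h1 : (((m - f.eval n).natAbs : ℕ) : ℝ) ≤ F := by
      rw [Nat.cast_natAbs]
      push_cast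
      exact hm
    have h2 : (m - f.eval n).natAbs ≤ ⌊F⌋₊ := Nat.le_floor h1
    rw [Int.abs_eq_natAbs]
    exact_mod_cast h2
  obtain ⟨p, hp1, hp2⟩ := hS3 n hres f hf (m - f.eval n) hkT
  have hpm : (p : ℤ) ∣ m := by
    have e : f.eval n + (m - f.eval n) = m := by ring
    rwa [e] at hp2
  have hpp := hS1 p hp1
  have hple : (p : ℝ) ≤ L ^ A := by
    refine hpp.2.trans (pow_le_pow_left₀ (by linarith) ?_ A)
    rw [hx]
    linarith
  refine ⟨⟨p, hpp.1, hple, hpm⟩, ?_⟩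
  intro hprime
  have h1 : m.natAbs.Prime := Int.prime_iff_natAbs_prime.mp hprime
  have h2 : p ∣ m.natAbs := Int.natCast_dvd.mp hpm
  have h3 : p = m.natAbs := (Nat.prime_dvd_prime_iff_eq hpp.1 h1).mp h2
  have h4 : |(m : ℝ)| = p := by
    rw [h3, Nat.cast_natAbs, Int.cast_abs]
  -- the value is large
  have hn5 : (8 : ℝ) ≤ |(n : ℝ)| := by linarith
  have hn6 : (1 : ℤ) ≤ |n| := by
    have : (1 : ℝ) ≤ |(n : ℝ)| := by linarith
    exact_mod_cast this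
  have h5 := eval_lower f E (h𝓕 f hf) (hfE f hf) A₀ A₀ (fun i _ => hfA f hf i) (hfA f hf 0) n
    hn6 (by
      have : 2 * ((E : ℝ) * A₀) ≤ |(n : ℝ)| := by linarith
      exact_mod_cast this)
  have h6 : |(n : ℝ)| - 2 * A₀ ≤ 2 * |((f.eval n : ℤ) : ℝ)| := by exact_mod_cast h5
  have h7 : |((f.eval n : ℤ) : ℝ)| ≤ |(m : ℝ)| + F := by
    have e : ((f.eval n : ℤ) : ℝ) = m - (m - (f.eval n : ℤ)) := by ring
    calc |((f.eval n : ℤ) : ℝ)| = |(m : ℝ) - (m - (f.eval n : ℤ))| := by rw [← e]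
      _ ≤ |(m : ℝ)| + |(m : ℝ) - (f.eval n : ℤ)| := abs_sub _ _
      _ ≤ |(m : ℝ)| + F := by linarith
  linarith

end Pool.Agent.TH621.RP
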