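import Pool.Agent.TH621.RP.Van

set_option autoImplicit false

/-! # Second moment of the number of roots of `f + k` modulo primes -/

namespace Pool.Agent.TH621.RP

open Finset Polynomial

/-- residues killing the shift `k` -/
def RR (f : ℤ[X]) (k : ℤ) (p : ℕ) : Finset ℕ :=
  (range p).filter (fun n : ℕ => (p : ℤ) ∣ f.eval (n : ℤ) + k)

theorem root_card (g : ℤ[X]) (p : ℕ) (hp : p.Prime) (hpa : ¬ (p : ℤ) ∣ g.leadingCoeff)
    (B : Finset ℕ) (hBw : ∀ x ∈ B, ∀ y ∈ B, x < y + p)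
    (hB : ∀ n ∈ B, (p : ℤ) ∣ g.eval (n : ℤ)) : B.card ≤ g.natDegree := by
  apply vdm_window g B p hB
  intro v hv hvB hdvd
  have hpp : Prime (p : ℤ) := Nat.prime_iff_prime_int.mp hp
  rcases hpp.dvd_or_dvd hdvd with h | h
  · rw [hpp.dvd_finsetProd_iff] at h
    obtain ⟨i, -, h⟩ := h
    rw [hpp.dvd_finsetProd_iff] at h
    obtain ⟨j, hj, h⟩ := h
    have hij : i < j := by simpa using hj
    have e1 := hBw _ (hvB i) _ (hvB j)
    have e2 := hBw _ (hvB j) _ (hvB i)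
    have e3 : (v j : ℤ) - v i = 0 := by
      apply Int.eq_zero_of_abs_lt_dvd h
      rw [abs_lt]
      constructor <;> omega
    have : v j = v i := by omega
    exact absurd (hv this) (by intro h; subst h; exact lt_irrefl _ hij)
  · exact hpa h

theorem RR_card (f : ℤ[X]) (hf : 1 ≤ f.natDegree) (k : ℤ) (p : ℕ) (hp : p.Prime)
    (hpa : ¬ (p : ℤ) ∣ f.leadingCoeff) : (RR f k p).card ≤ f.natDegree := by
  have hdeg : (f + C k).natDegree = f.natDegree := natDegree_add_C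
  have hlc : (f + C k).leadingCoeff = f.leadingCoeff := by
    rw [Polynomial.leadingCoeff, hdeg, coeff_add, coeff_C, if_neg (by omega), add_zero]
    rfl
  rw [← hdeg]
  apply root_card (f + C k) p hp (by rwa [hlc])
  · intro x hx y hy
    unfold RR at hx
    have := mem_range.mp (mem_filter.mp hx).1
    omega
  · intro n hn
    unfold RR at hn
    have := (mem_filter.mp hn).2
    simpa using this

theorem count_Ioc (a b : ℤ) (hab : a ≤ b) (q : ℕ) (hq : 0 < q) (r : ℤ) :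
    |((((Ioc a b).filter (fun x => (q : ℤ) ∣ x - r)).card : ℕ) : ℝ) - ((b : ℝ) - a) / q| ≤ 1 := by
  have hq' : (0 : ℤ) < q := by exact_mod_cast hq
  have hq0 : (0 : ℝ) < q := by exact_mod_cast hq
  have h1 : (Ioc a b).filter (fun x => (q : ℤ) ∣ x - r) =
      (Ioc a b).filter (fun x => x ≡ r [ZMOD q]) := by
    apply filter_congr
    intro x _
    rw [Int.modEq_iff_dvd, dvd_sub_comm]
  rw [h1]
  have h2 := Int.Ioc_filter_modEq_card a b hq' r
  have h3 : ((((Ioc a b).filter (fun x => x ≡ r [ZMOD q])).card : ℕ) : ℝ) =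
      ((max (⌊((b : ℚ) - r) / q⌋ - ⌊((a : ℚ) - r) / q⌋) 0 : ℤ) : ℝ) := by
    exact_mod_cast congrArg (fun z : ℤ => (z : ℝ)) (by exact_mod_cast h2)
  have h4 : ⌊((a : ℚ) - r) / q⌋ ≤ ⌊((b : ℚ) - r) / q⌋ := by
    apply Int.floor_le_floor
    have : (a : ℚ) ≤ b := by exact_mod_cast hab
    gcongr
  rw [h3, max_eq_left (by linarith)]
  have f1 := Int.floor_le (((b : ℚ) - r) / q)
  have f2 := Int.lt_floor_add_one (((b : ℚ) - r) / q)
  have f3 := Int.floor_le (((a : ℚ) - r) / q)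
  have f4 := Int.lt_floor_add_one (((a : ℚ) - r) / q)
  have g1 : ((⌊((b : ℚ) - r) / q⌋ : ℤ) : ℝ) ≤ ((b : ℝ) - r) / q := by exact_mod_cast f1
  have g2 : ((b : ℝ) - r) / q < ((⌊((b : ℚ) - r) / q⌋ : ℤ) : ℝ) + 1 := by exact_mod_cast f2
  have g3 : ((⌊((a : ℚ) - r) / q⌋ : ℤ) : ℝ) ≤ ((a : ℝ) - r) / q := by exact_mod_cast f3
  have g4 : ((a : ℝ) - r) / q < ((⌊((a : ℚ) - r) / q⌋ : ℤ) : ℝ) + 1 := by exact_mod_cast f4
  have g5 : ((b : ℝ) - a) / q = ((b : ℝ) - r) / q - ((a : ℝ) - r) / q := by ring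
  rw [g5]
  push_cast
  rw [abs_le]
  constructor <;> linarith

/-- first moment -/
theorem mom1 (f : ℤ[X]) (a b : ℤ) (hab : a ≤ b) (p : ℕ) (hp : 0 < p) :
    |∑ k ∈ Ioc a b, ((RR f k p).card : ℝ) - ((b : ℝ) - a)| ≤ p := by
  have hp0 : (0 : ℝ) < p := by exact_mod_cast hp
  have h1 : ∑ k ∈ Ioc a b, ((RR f k p).card : ℝ) = ∑ n ∈ range p,
      ((((Ioc a b).filter (fun x => (p : ℤ) ∣ x - (-f.eval (n : ℤ)))).card : ℕ) : ℝ) := by
    unfold RR
    simp only [card_filter]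
    push_cast
    rw [sum_comm]
    refine sum_congr rfl fun n _ => sum_congr rfl fun k _ => ?_
    have : f.eval (n : ℤ) + k = k - (-f.eval (n : ℤ)) := by ring
    rw [this]
  have h2 : (b : ℝ) - a = ∑ _n ∈ range p, ((b : ℝ) - a) / p := by
    rw [sum_const, card_range, nsmul_eq_mul]
    field_simp
  rw [h1]
  conv_lhs => rw [h2]
  rw [← sum_sub_distrib]
  calc _ ≤ ∑ n ∈ range p, |((((Ioc a b).filter
        (fun x => (p : ℤ) ∣ x - (-f.eval (n : ℤ)))).card : ℕ) : ℝ) - ((b : ℝ) - a) / p| :=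
        abs_sum_le_sum_abs _ _
    _ ≤ ∑ _n ∈ range p, (1 : ℝ) := sum_le_sum fun n _ => count_Ioc a b hab p hp _
    _ = p := by simp

/-- mixed moment -/
theorem mom2 (f : ℤ[X]) (a b : ℤ) (hab : a ≤ b) (p q : ℕ) (hp : p.Prime) (hq : q.Prime)
    (hpq : p ≠ q) :
    |∑ k ∈ Ioc a b, ((RR f k p).card : ℝ) * ((RR f k q).card : ℝ) - ((b : ℝ) - a)| ≤
      (p : ℝ) * q := by
  have hp0 : (0 : ℝ) < p := by exact_mod_cast hp.pos
  have hq0 : (0 : ℝ) < q := by exact_mod_cast hq.pos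
  have hcop : IsCoprime (p : ℤ) (q : ℤ) :=
    Nat.isCoprime_iff_coprime.mpr ((Nat.coprime_primes hp hq).mpr hpq)
  obtain ⟨u, v, huv⟩ := hcop
  set r : ℕ → ℕ → ℤ := fun n m =>
    -(f.eval (n : ℤ)) * (v * q) - f.eval (m : ℤ) * (u * p) with hr
  have hiff : ∀ n m : ℕ, ∀ k : ℤ, ((p : ℤ) ∣ f.eval (n : ℤ) + k ∧ (q : ℤ) ∣ f.eval (m : ℤ) + k) ↔
      ((p * q : ℕ) : ℤ) ∣ k - r n m := by
    intro n m k
    have e1 : f.eval (n : ℤ) + r n m = p * (u * (f.eval (n : ℤ) - f.eval (m : ℤ))) := by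
      rw [hr]
      linear_combination (-(f.eval (n : ℤ))) * huv
    have e2 : f.eval (m : ℤ) + r n m = q * (v * (f.eval (m : ℤ) - f.eval (n : ℤ))) := by
      rw [hr]
      linear_combination (-(f.eval (m : ℤ))) * huv
    have e3 : f.eval (n : ℤ) + k = (k - r n m) + p * (u * (f.eval (n : ℤ) - f.eval (m : ℤ))) := by
      rw [← e1]; ring
    have e4 : f.eval (m : ℤ) + k = (k - r n m) + q * (v * (f.eval (m : ℤ) - f.eval (n : ℤ))) := by
      rw [← e2]; ring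
    rw [e3, e4, dvd_add_left (dvd_mul_right _ _), dvd_add_left (dvd_mul_right _ _)]
    push_cast
    constructor
    · rintro ⟨h1, h2⟩
      exact IsCoprime.mul_dvd ⟨u, v, huv⟩ h1 h2
    · intro h
      exact ⟨(dvd_mul_right _ _).trans h, (dvd_mul_left _ _).trans h⟩
  have h1 : ∑ k ∈ Ioc a b, ((RR f k p).card : ℝ) * ((RR f k q).card : ℝ) =
      ∑ n ∈ range p, ∑ m ∈ range q,
      ((((Ioc a b).filter (fun x => ((p * q : ℕ) : ℤ) ∣ x - r n m)).card : ℕ) : ℝ) := by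
    have e1 : ∀ k ∈ Ioc a b, ((RR f k p).card : ℝ) * ((RR f k q).card : ℝ) =
        ∑ n ∈ range p, ∑ m ∈ range q, (if ((p * q : ℕ) : ℤ) ∣ k - r n m then (1 : ℝ) else 0) := by
      intro k _
      unfold RR
      simp only [card_filter]
      push_cast
      rw [sum_mul_sum]
      refine sum_congr rfl fun n _ => sum_congr rfl fun m _ => ?_
      have := hiff n m k
      push_cast at this
      by_cases h1 : (p : ℤ) ∣ f.eval (n : ℤ) + k
      · by_cases h2 : (q : ℤ) ∣ f.eval (m : ℤ) + k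
        · rw [if_pos h1, if_pos h2, if_pos (this.mp ⟨h1, h2⟩), mul_one]
        · rw [if_neg h2, if_neg (fun h => h2 (this.mpr h).2), mul_zero]
      · rw [if_neg h1, if_neg (fun h => h1 (this.mpr h).1), zero_mul]
    rw [sum_congr rfl e1, sum_comm]
    refine sum_congr rfl fun n _ => ?_
    rw [sum_comm]
    refine sum_congr rfl fun m _ => ?_
    rw [card_filter]
    push_cast
    rfl
  have h2 : (b : ℝ) - a = ∑ _n ∈ range p, ∑ _m ∈ range q, ((b : ℝ) - a) / ((p * q : ℕ) : ℝ) := by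
    rw [sum_const, sum_const, card_range, card_range, nsmul_eq_mul, nsmul_eq_mul]
    push_cast
    field_simp
  rw [h1]
  conv_lhs => rw [h2]
  rw [← sum_sub_distrib]
  simp_rw [← sum_sub_distrib]
  calc _ ≤ ∑ n ∈ range p, |∑ m ∈ range q, (((((Ioc a b).filter
        (fun x => ((p * q : ℕ) : ℤ) ∣ x - r n m)).card : ℕ) : ℝ) -
        ((b : ℝ) - a) / ((p * q : ℕ) : ℝ))| := abs_sum_le_sum_abs _ _
    _ ≤ ∑ n ∈ range p, ∑ m ∈ range q, |((((Ioc a b).filter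
        (fun x => ((p * q : ℕ) : ℤ) ∣ x - r n m)).card : ℕ) : ℝ) -
        ((b : ℝ) - a) / ((p * q : ℕ) : ℝ)| := sum_le_sum fun n _ => abs_sum_le_sum_abs _ _
    _ ≤ ∑ _n ∈ range p, ∑ _m ∈ range q, (1 : ℝ) := sum_le_sum fun n _ => sum_le_sum fun m _ =>
        count_Ioc a b hab (p * q) (Nat.mul_pos hp.pos hq.pos) _
    _ = p * q := by simp

/-- the discrepancy -/
noncomputable def SS (f : ℤ[X]) (𝓜 : Finset ℕ) (k : ℤ) : ℝ :=
  ∑ p ∈ 𝓜, (((RR f k p).card : ℝ) - 1) / p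

/-- the second moment -/
theorem mom (f : ℤ[X]) (hf : 1 ≤ f.natDegree) (E P : ℕ) (hE : f.natDegree ≤ E) (hP : 1 ≤ P)
    (hlc : |f.leadingCoeff| ≤ P) (a b : ℤ) (hab : a ≤ b) (𝓜 : Finset ℕ)
    (h𝓜 : ∀ p ∈ 𝓜, p.Prime ∧ P < p) :
    ∑ k ∈ Ioc a b, (SS f 𝓜 k) ^ 2 ≤ 3 * (𝓜.card : ℝ) ^ 2 + ((b : ℝ) - a) * E ^ 2 / P := by
  have hlc0 : f.leadingCoeff ≠ 0 := by
    rw [Ne, Polynomial.leadingCoeff_eq_zero]
    rintro rfl
    simp at hf
  have hE1 : (1 : ℝ) ≤ E := by exact_mod_cast hf.trans hE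
  have hab' : (0 : ℝ) ≤ (b : ℝ) - a := by
    have : (a : ℝ) ≤ b := by exact_mod_cast hab
    linarith
  have hcardI : ((Ioc a b).card : ℝ) = (b : ℝ) - a := by
    rw [Int.card_Ioc]
    have : ((b - a).toNat : ℤ) = b - a := Int.toNat_of_nonneg (by linarith)
    exact_mod_cast this
  have hR : ∀ p ∈ 𝓜, ∀ k, ((RR f k p).card : ℝ) ≤ E := by
    intro p hp k
    have hpp := h𝓜 p hp
    have h1 := RR_card f hf k p hpp.1 (by
      intro hd
      have h4 := Int.le_of_dvd (abs_pos.mpr hlc0) ((dvd_abs _ _).mpr hd)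
      have h5 : (p : ℤ) ≤ P := h4.trans hlc
      have h6 : p ≤ P := by exact_mod_cast h5
      omega)
    exact_mod_cast h1.trans hE
  have h1 : ∑ k ∈ Ioc a b, (SS f 𝓜 k) ^ 2 = ∑ p ∈ 𝓜, ∑ q ∈ 𝓜, (1 / ((p : ℝ) * q)) *
      ∑ k ∈ Ioc a b, (((RR f k p).card : ℝ) - 1) * (((RR f k q).card : ℝ) - 1) := by
    unfold SS
    simp_rw [sq, sum_mul_sum]
    rw [sum_comm]
    refine sum_congr rfl fun p _ => ?_
    rw [sum_comm]
    refine sum_congr rfl fun q _ => ?_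
    rw [mul_sum]
    refine sum_congr rfl fun k _ => ?_
    rw [div_mul_div_comm]
    ring
  rw [h1]
  have h2 : ∀ p ∈ 𝓜, ∑ q ∈ 𝓜, (1 / ((p : ℝ) * q)) *
      ∑ k ∈ Ioc a b, (((RR f k p).card : ℝ) - 1) * (((RR f k q).card : ℝ) - 1) ≤
      3 * (𝓜.card : ℝ) + ((b : ℝ) - a) * E ^ 2 * ((p : ℝ) ^ 2)⁻¹ := by
    intro p hp
    have hpp := h𝓜 p hp
    have hp0 : (0 : ℝ) < p := by exact_mod_cast hpp.1.pos
    have hp1 : (1 : ℝ) ≤ p := by exact_mod_cast hpp.1.one_lt.le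
    rw [← add_sum_erase 𝓜 _ hp]
    have e1 : (1 / ((p : ℝ) * p)) *
        ∑ k ∈ Ioc a b, (((RR f k p).card : ℝ) - 1) * (((RR f k p).card : ℝ) - 1) ≤
        ((b : ℝ) - a) * E ^ 2 * ((p : ℝ) ^ 2)⁻¹ := by
      have e2 : ∑ k ∈ Ioc a b, (((RR f k p).card : ℝ) - 1) * (((RR f k p).card : ℝ) - 1) ≤
          ∑ _k ∈ Ioc a b, (E : ℝ) ^ 2 := by
        refine sum_le_sum fun k _ => ?_
        have e3 := hR p hp k
        have e4 : (0 : ℝ) ≤ ((RR f k p).card : ℝ) := Nat.cast_nonneg _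
        rw [← sq]
        apply sq_le_sq'
        · linarith
        · linarith
      rw [sum_const, nsmul_eq_mul, hcardI] at e2
      have e5 : 1 / ((p : ℝ) * p) = ((p : ℝ) ^ 2)⁻¹ := by rw [sq, one_div]
      rw [e5, mul_comm]
      exact mul_le_mul_of_nonneg_right e2 (by positivity)
    have e6 : ∑ q ∈ 𝓜.erase p, (1 / ((p : ℝ) * q)) *
        ∑ k ∈ Ioc a b, (((RR f k p).card : ℝ) - 1) * (((RR f k q).card : ℝ) - 1) ≤
        ∑ _q ∈ 𝓜.erase p, (3 : ℝ) := by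
      refine sum_le_sum fun q hq => ?_
      rw [mem_erase] at hq
      have hqq := h𝓜 q hq.2
      have hq0 : (0 : ℝ) < q := by exact_mod_cast hqq.1.pos
      have hq1 : (1 : ℝ) ≤ q := by exact_mod_cast hqq.1.one_lt.le
      have m1 := abs_le.mp (mom1 f a b hab p hpp.1.pos)
      have m2 := abs_le.mp (mom1 f a b hab q hqq.1.pos)
      have m3 := abs_le.mp (mom2 f a b hab p q hpp.1 hqq.1 hq.1.symm)
      have e7 : ∑ k ∈ Ioc a b, (((RR f k p).card : ℝ) - 1) * (((RR f k q).card : ℝ) - 1) =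
          ∑ k ∈ Ioc a b, ((RR f k p).card : ℝ) * ((RR f k q).card : ℝ) -
          ∑ k ∈ Ioc a b, ((RR f k p).card : ℝ) - ∑ k ∈ Ioc a b, ((RR f k q).card : ℝ) +
          ((b : ℝ) - a) := by
        rw [← hcardI, ← sum_sub_distrib, ← sum_sub_distrib]
        have : ((Ioc a b).card : ℝ) = ∑ _k ∈ Ioc a b, (1 : ℝ) := by simp
        rw [this, ← sum_add_distrib]
        refine sum_congr rfl fun k _ => ?_
        ring
      have e8 : ∑ k ∈ Ioc a b, (((RR f k p).card : ℝ) - 1) * (((RR f k q).card : ℝ) - 1) ≤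
          3 * ((p : ℝ) * q) := by
        rw [e7]
        nlinarith
      rw [one_div, inv_mul_le_iff₀ (by positivity)]
      linarith
    rw [sum_const, nsmul_eq_mul] at e6
    have e9 : ((𝓜.erase p).card : ℝ) ≤ 𝓜.card := by exact_mod_cast card_erase_le
    linarith
  refine (sum_le_sum h2).trans ?_
  rw [sum_add_distrib, sum_const, nsmul_eq_mul, ← mul_sum]
  have h3 : ∑ p ∈ 𝓜, ((p : ℝ) ^ 2)⁻¹ ≤ 1 / P := by
    set Q := P + 𝓜.sup id with hQ
    have e1 : 𝓜 ⊆ Ioc P Q := by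
      intro p hp
      rw [mem_Ioc]
      refine ⟨(h𝓜 p hp).2, ?_⟩
      have : id p ≤ 𝓜.sup id := le_sup hp
      simp only [id] at this
      omega
    refine (sum_le_sum_of_subset_of_nonneg e1 fun _ _ _ => by positivity).trans ?_
    refine (sum_Ioc_inv_sq_le_sub (by omega) (by omega)).trans ?_
    rw [one_div]
    have : (0 : ℝ) ≤ ((Q : ℕ) : ℝ)⁻¹ := by positivity
    linarith
  have h4 : ((b : ℝ) - a) * E ^ 2 * ∑ p ∈ 𝓜, ((p : ℝ) ^ 2)⁻¹ ≤
      ((b : ℝ) - a) * E ^ 2 * (1 / P) := by gcongr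
  have h5 : ((b : ℝ) - a) * E ^ 2 * (1 / (P : ℝ)) = ((b : ℝ) - a) * E ^ 2 / P := by ring
  nlinarith

/-- few exceptional shifts -/
theorem few_exc (f : ℤ[X]) (hf : 1 ≤ f.natDegree) (E P : ℕ) (hE : f.natDegree ≤ E) (hP : 1 ≤ P)
    (hlc : |f.leadingCoeff| ≤ P) (a b : ℤ) (hab : a ≤ b) (𝓜 : Finset ℕ)
    (h𝓜 : ∀ p ∈ 𝓜, p.Prime ∧ P < p) :
    (((Ioc a b).filter (fun k => SS f 𝓜 k < -1)).card : ℝ) ≤
      3 * (𝓜.card : ℝ) ^ 2 + ((b : ℝ) - a) * E ^ 2 / P := by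
  refine le_trans ?_ (mom f hf E P hE hP hlc a b hab 𝓜 h𝓜)
  calc (((Ioc a b).filter (fun k => SS f 𝓜 k < -1)).card : ℝ)
      = ∑ _k ∈ (Ioc a b).filter (fun k => SS f 𝓜 k < -1), (1 : ℝ) := by simp
    _ ≤ ∑ k ∈ (Ioc a b).filter (fun k => SS f 𝓜 k < -1), (SS f 𝓜 k) ^ 2 := by
        refine sum_le_sum fun k hk => ?_
        have := (mem_filter.mp hk).2
        nlinarith
    _ ≤ _ := sum_le_sum_of_subset_of_nonneg (filter_subset _ _) fun _ _ _ => sq_nonneg _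

end Pool.Agent.TH621.RP
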