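import Pool.Agent.TH621.RP.Main

set_option autoImplicit false

/-! # Polynomials with rational coefficients -/

namespace Pool.Agent.TH621.RP

open Finset Polynomial

/-- a common denominator -/
noncomputable def dn (𝓕 : Finset ℚ[X]) : ℕ := ∏ f ∈ 𝓕, ∏ i ∈ f.support, (f.coeff i).den

theorem dn_pos (𝓕 : Finset ℚ[X]) : 0 < dn 𝓕 :=
  prod_pos fun f _ => prod_pos fun i _ => (f.coeff i).den_pos

theorem den_dvd (𝓕 : Finset ℚ[X]) (f : ℚ[X]) (hf : f ∈ 𝓕) (i : ℕ) :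
    (f.coeff i).den ∣ dn 𝓕 := by
  by_cases hi : i ∈ f.support
  · exact (dvd_prod_of_mem (fun i => (f.coeff i).den) hi).trans
      (dvd_prod_of_mem (fun f : ℚ[X] => ∏ i ∈ f.support, (f.coeff i).den) hf)
  · rw [notMem_support_iff] at hi
    rw [hi]
    simp

/-- the integral coefficients of `f (D x)` -/
noncomputable def ic (f : ℚ[X]) (D : ℕ) (i : ℕ) : ℤ := (f.coeff i * (D : ℚ) ^ i).num

theorem ic_cast (𝓕 : Finset ℚ[X]) (f : ℚ[X]) (hf : f ∈ 𝓕) (i : ℕ) (hi : 1 ≤ i) :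
    ((ic f (dn 𝓕) i : ℤ) : ℚ) = f.coeff i * ((dn 𝓕 : ℕ) : ℚ) ^ i := by
  unfold ic
  obtain ⟨e, he⟩ := den_dvd 𝓕 f hf i
  obtain ⟨j, rfl⟩ : ∃ j, i = j + 1 := ⟨i - 1, by omega⟩
  have h1 : f.coeff (j + 1) * ((dn 𝓕 : ℕ) : ℚ) ^ (j + 1) =
      (((f.coeff (j + 1)).num * e * (dn 𝓕 : ℤ) ^ j : ℤ) : ℚ) := by
    have h2 : ((dn 𝓕 : ℕ) : ℚ) = (f.coeff (j + 1)).den * e := by
      rw [he]; push_cast; ring
    have h3 : f.coeff (j + 1) * (f.coeff (j + 1)).den = (f.coeff (j + 1)).num :=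
      Rat.mul_den_eq_num _
    rw [pow_succ]
    push_cast
    rw [← h3]
    calc f.coeff (j + 1) * ((dn 𝓕 : ℚ) ^ j * (dn 𝓕 : ℚ)) =
          f.coeff (j + 1) * ((dn 𝓕 : ℚ) ^ j * ((f.coeff (j + 1)).den * e)) := by rw [← h2]
      _ = _ := by ring
  rw [h1]
  norm_cast

/-- the integral polynomial -/
noncomputable def gp (f : ℚ[X]) (D : ℕ) : ℤ[X] :=
  (∑ i ∈ Icc 1 f.natDegree, C (ic f D i) * X ^ i) + C ⌊f.coeff 0⌋

theorem gp_eval (𝓕 : Finset ℚ[X]) (f : ℚ[X]) (hf : f ∈ 𝓕) (n : ℤ) :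
    (((gp f (dn 𝓕)).eval n : ℤ) : ℚ) = f.eval (((dn 𝓕 : ℤ) * n : ℤ) : ℚ) - Int.fract (f.coeff 0) := by
  unfold gp
  rw [eval_add, eval_finsetSum, eval_C]
  simp only [eval_mul, eval_C, eval_pow, eval_X]
  rw [Polynomial.eval_eq_sum_range, sum_range_succ', pow_zero, mul_one]
  have h1 : ∑ i ∈ Icc 1 f.natDegree, ic f (dn 𝓕) i * n ^ i =
      ∑ i ∈ range f.natDegree, ic f (dn 𝓕) (i + 1) * n ^ (i + 1) := by
    rw [range_eq_Ico, sum_Ico_add' (fun i => ic f (dn 𝓕) i * n ^ i) 0 f.natDegree 1]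
    rfl
  rw [h1]
  push_cast
  have h2 : ∀ i ∈ range f.natDegree, ((ic f (dn 𝓕) (i + 1) : ℤ) : ℚ) * (n : ℚ) ^ (i + 1) =
      f.coeff (i + 1) * ((dn 𝓕 : ℚ) * n) ^ (i + 1) := by
    intro i _
    rw [ic_cast 𝓕 f hf (i + 1) (by omega), mul_pow]
    ring
  rw [sum_congr rfl h2]
  have h3 : ((⌊f.coeff 0⌋ : ℤ) : ℚ) = f.coeff 0 - Int.fract (f.coeff 0) := by
    rw [Int.fract]; ring
  rw [h3]
  ring

theorem gp_deg (𝓕 : Finset ℚ[X]) (f : ℚ[X]) (hf : f ∈ 𝓕) (hd : 1 ≤ f.natDegree) :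
    1 ≤ (gp f (dn 𝓕)).natDegree := by
  refine hd.trans (le_natDegree_of_ne_zero ?_)
  unfold gp
  rw [coeff_add, coeff_C, if_neg (by omega), add_zero, finsetSum_coeff]
  simp only [coeff_C_mul, coeff_X_pow]
  rw [sum_eq_single f.natDegree]
  · rw [if_pos rfl, mul_one]
    intro h0
    have h1 := ic_cast 𝓕 f hf f.natDegree hd
    rw [h0] at h1
    have h2 : f.coeff f.natDegree ≠ 0 := by
      rw [← Polynomial.leadingCoeff, Ne, Polynomial.leadingCoeff_eq_zero]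
      rintro rfl
      simp at hd
    have h3 : ((dn 𝓕 : ℕ) : ℚ) ≠ 0 := by
      have := dn_pos 𝓕
      positivity
    exact mul_ne_zero h2 (pow_ne_zero _ h3) (by rw [← h1]; simp)
  · intro b _ hb
    rw [if_neg (by omega), mul_zero]
  · intro h
    exact absurd (mem_Icc.mpr ⟨hd, le_rfl⟩) h

open Pool.Agent.H256R2.SC.LG in
/-- comparison of the length at `Y` and at `Y / D` -/
theorem rankin_div (D : ℕ) (hD : 0 < D) (B : ℝ) : ∃ Y₀ : ℝ, ∀ Y : ℝ, Y₀ ≤ Y →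
    1 ≤ Y ∧ 1 ≤ Real.log (Y / D) ∧ rankin Y ≤ 8 * rankin (Y / D) ∧ B ≤ rankin Y := by
  have hD0 : (0 : ℝ) < D := by exact_mod_cast hD
  have hD1 : (1 : ℝ) ≤ D := by exact_mod_cast hD
  have hlD : 0 ≤ Real.log D := Real.log_nonneg hD1
  obtain ⟨Y₀, h⟩ := ev_log (max 100 (max (4 * Real.log D) B))
  refine ⟨Y₀, fun Y hY => ?_⟩
  obtain ⟨h1, m1, m2, m3, m4⟩ := h Y hY
  set M := max 100 (max (4 * Real.log D) B) with hM
  have M1 : 100 ≤ M := le_max_left _ _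
  have M2 : 4 * Real.log D ≤ M := (le_max_left _ _).trans (le_max_right _ _)
  have M3 : B ≤ M := (le_max_right _ _).trans (le_max_right _ _)
  have hY0 : 0 < Y := by linarith
  set l1 := Real.log Y with hl1
  set l2 := Real.log l1 with hl2
  set l3 := Real.log l2 with hl3
  set l4 := Real.log l3 with hl4
  have p1 : 0 < l1 := by linarith
  have p2 : 0 < l2 := by linarith
  have p3 : 0 < l3 := by linarith
  have p4 : 0 < l4 := by linarith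
  have hlog10 := log10_lt
  set k1 := Real.log (Y / D) with hk1
  have e1 : k1 = l1 - Real.log D := by rw [hk1, Real.log_div hY0.ne' hD0.ne']
  have k1a : l1 / 2 ≤ k1 := by rw [e1]; linarith
  have k1b : k1 ≤ l1 := by rw [e1]; linarith
  have hk10 : 0 < k1 := by linarith
  have k2a : l2 / 2 ≤ Real.log k1 := half_log (by linarith) (by linarith) p1
  have k2b : Real.log k1 ≤ l2 := Real.log_le_log hk10 k1b
  set k2 := Real.log k1 with hk2
  have hk20 : 0 < k2 := by linarith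
  have k3a : l3 / 2 ≤ Real.log k2 := half_log (by linarith) (by linarith) p2
  have k3b : Real.log k2 ≤ l3 := Real.log_le_log hk20 k2b
  set k3 := Real.log k2 with hk3
  have hk30 : 0 < k3 := by linarith
  have k4a : l4 / 2 ≤ Real.log k3 := half_log (by linarith) (by linarith) p3
  set k4 := Real.log k3 with hk4
  have hk40 : 0 < k4 := by linarith
  have r1 : rankin Y = l1 * l2 * l4 / l3 ^ 2 := rfl
  have r2 : rankin (Y / D) = k1 * k2 * k4 / k3 ^ 2 := rfl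
  refine ⟨h1, by linarith, ?_, ?_⟩
  · rw [r1, r2]
    calc l1 * l2 * l4 / l3 ^ 2 = 8 * ((l1 / 2) * (l2 / 2) * (l4 / 2) / l3 ^ 2) := by ring
      _ ≤ 8 * (k1 * k2 * k4 / k3 ^ 2) := by gcongr
  · rw [r1]
    have q1 : l3 ^ 2 ≤ 4 * l2 := log_sq_le (by linarith)
    rw [le_div_iff₀ (by positivity)]
    have e5 : B * l3 ^ 2 ≤ l1 * (4 * l2) := by
      calc B * l3 ^ 2 ≤ l1 * l3 ^ 2 := by
            apply mul_le_mul_of_nonneg_right _ (sq_nonneg _)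
            linarith
        _ ≤ l1 * (4 * l2) := by gcongr
    have e6 : l1 * (4 * l2) ≤ l1 * l2 * l4 := by
      have : 0 < l1 * l2 := by positivity
      nlinarith
    linarith

theorem main_rat (𝓕 : Finset ℚ[X]) (h𝓕 : ∀ f ∈ 𝓕, 1 ≤ f.natDegree) :
    ∃ (c : ℝ) (A : ℕ), 0 < c ∧ ∃ Y₀ : ℝ, ∀ Y : ℝ, Y₀ ≤ Y → ∀ M : ℤ,
    ∃ n : ℤ, M < n ∧ (n : ℝ) ≤ M + Y ∧ ∀ f ∈ 𝓕, ∀ m : ℤ,
      |(m : ℝ) - ((f.eval (n : ℚ) : ℚ) : ℝ)| ≤ c * rankin Y →
      (∃ p : ℕ, p.Prime ∧ (p : ℝ) ≤ (Real.log Y) ^ A ∧ (p : ℤ) ∣ m) ∧ ¬ Prime m := by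
  classical
  set D := dn 𝓕 with hD
  have hD0 : 0 < D := dn_pos 𝓕
  have hD0' : (0 : ℝ) < D := by exact_mod_cast hD0
  have hD1 : (1 : ℝ) ≤ D := by exact_mod_cast hD0
  obtain ⟨c, A, hc, Y₁, hmain⟩ := main (𝓕.image (fun f => gp f D)) (by
    intro g hg
    obtain ⟨f, hf, rfl⟩ := mem_image.mp hg
    exact gp_deg 𝓕 f hf (h𝓕 f hf))
  obtain ⟨Y₂, hr⟩ := rankin_div D hD0 (16 / c)
  refine ⟨c / 16, A, by positivity, max (D * Y₁) Y₂, fun Y hY M => ?_⟩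
  have hY1 : D * Y₁ ≤ Y := (le_max_left _ _).trans hY
  have hY2 : Y₂ ≤ Y := (le_max_right _ _).trans hY
  obtain ⟨r0, r1, r2, r3⟩ := hr Y hY2
  obtain ⟨n, hn1, hn2, hn3⟩ := hmain (Y / D) (by
    rw [le_div_iff₀ hD0']
    linarith) (M / (D : ℤ))
  have hDz : (0 : ℤ) < D := by exact_mod_cast hD0
  have hdiv1 : (D : ℤ) * (M / (D : ℤ)) ≤ M := Int.mul_ediv_self_le hDz.ne'
  have hdiv2 : M < (D : ℤ) * (M / (D : ℤ) + 1) := by
    have := Int.lt_mul_ediv_self_add (x := M) hDz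
    linarith
  refine ⟨(D : ℤ) * n, ?_, ?_, ?_⟩
  · have h1 : (D : ℤ) * (M / (D : ℤ) + 1) ≤ (D : ℤ) * n :=
      mul_le_mul_of_nonneg_left (by linarith) hDz.le
    linarith
  · push_cast
    have h1 : (D : ℝ) * n ≤ D * (((M / (D : ℤ) : ℤ) : ℝ) + Y / D) :=
      mul_le_mul_of_nonneg_left hn2 hD0'.le
    have h2 : (D : ℝ) * (((M / (D : ℤ) : ℤ) : ℝ) + Y / D) =
        ((D * (M / (D : ℤ)) : ℤ) : ℝ) + Y := by
      push_cast
      field_simp
    have h3 : ((D * (M / (D : ℤ)) : ℤ) : ℝ) ≤ M := by exact_mod_cast hdiv1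
    linarith
  · intro f hf m hm
    have h1 := gp_eval 𝓕 f hf n
    rw [← hD] at h1
    have h2 : (((gp f D).eval n : ℤ) : ℝ) =
        ((f.eval (((D : ℤ) * n : ℤ) : ℚ) : ℚ) : ℝ) - ((Int.fract (f.coeff 0) : ℚ) : ℝ) := by
      exact_mod_cast congrArg (fun q : ℚ => (q : ℝ)) h1
    have h3 : (0 : ℝ) ≤ ((Int.fract (f.coeff 0) : ℚ) : ℝ) := by
      exact_mod_cast Int.fract_nonneg _
    have h4 : ((Int.fract (f.coeff 0) : ℚ) : ℝ) ≤ 1 := by
      exact_mod_cast (Int.fract_lt_one (f.coeff 0)).le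
    have h5 : |(m : ℝ) - (((gp f D).eval n : ℤ) : ℝ)| ≤ c * rankin (Y / D) := by
      have e1 : (1 : ℝ) ≤ c / 16 * rankin Y := by
        have : c / 16 * (16 / c) ≤ c / 16 * rankin Y := by gcongr
        have e2 : c / 16 * (16 / c) = 1 := by field_simp
        linarith
      have e2 : c / 16 * rankin Y + c / 16 * rankin Y ≤ c * rankin (Y / D) := by
        have : c / 8 * rankin Y ≤ c / 8 * (8 * rankin (Y / D)) := by gcongr
        linarith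
      have e3 : (m : ℝ) - (((gp f D).eval n : ℤ) : ℝ) =
          ((m : ℝ) - ((f.eval (((D : ℤ) * n : ℤ) : ℚ) : ℚ) : ℝ)) +
            ((Int.fract (f.coeff 0) : ℚ) : ℝ) := by rw [h2]; ring
      rw [e3]
      refine (abs_add_le _ _).trans ?_
      rw [abs_of_nonneg h3]
      linarith
    obtain ⟨⟨p, hp1, hp2, hp3⟩, hp4⟩ := hn3 (gp f D) (mem_image.mpr ⟨f, hf, rfl⟩) m h5
    refine ⟨⟨p, hp1, hp2.trans ?_, hp3⟩, hp4⟩
    apply pow_le_pow_left₀ (by linarith)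
    apply Real.log_le_log (by positivity)
    exact div_le_self (by linarith) hD1

end Pool.Agent.TH621.RP
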