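import Pool.Agent.TH621.RP.Cho
import Pool.Agent.TH621.RP.LemK
import Pool.Agent.H426R3.SQ.N4
import Pool.Agent.H426R3.SQ.M1a
import Pool.Agent.H398R2.RK.Count

set_option autoImplicit false

/-! # Counting the shifts that survive the residue class zero -/

namespace Pool.Agent.TH621.RP

open Finset Polynomial

open scoped Classical

/-- the interval of shifts -/
noncomputable def II (T : ℕ) : Finset ℤ := Ioc (-(T : ℤ) - 1) T

theorem mem_II {T : ℕ} {k : ℤ} : k ∈ II T ↔ |k| ≤ T := by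
  unfold II
  rw [mem_Ioc, abs_le]
  constructor <;> rintro ⟨h1, h2⟩ <;> constructor <;> linarith

/-- counting shifts by the absolute value of the translate -/
theorem count_abs (t : ℤ) (T : ℕ) (ht : |t| ≤ T) (Q : ℕ → Prop) :
    ((II T).filter (fun k => t + k ≠ 0 ∧ Q (t + k).natAbs)).card ≤
      2 * ((Icc 1 (2 * T)).filter Q).card := by
  have h1 : (II T).filter (fun k => t + k ≠ 0 ∧ Q (t + k).natAbs) ⊆
      ((Icc 1 (2 * T)).filter Q).image (fun m : ℕ => (m : ℤ) - t) ∪
      ((Icc 1 (2 * T)).filter Q).image (fun m : ℕ => -(m : ℤ) - t) := by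
    intro k hk
    rw [mem_filter, mem_II] at hk
    obtain ⟨hk1, hk2, hk3⟩ := hk
    have e1 : ((t + k).natAbs : ℤ) = |t + k| := Int.natCast_natAbs _
    have e2 : |t + k| ≤ 2 * T := (abs_add_le t k).trans (by linarith)
    have e3 : (t + k).natAbs ≤ 2 * T := by
      have : ((t + k).natAbs : ℤ) ≤ ((2 * T : ℕ) : ℤ) := by rw [e1]; push_cast; exact e2
      exact_mod_cast this
    have e4 : 1 ≤ (t + k).natAbs := Int.natAbs_pos.mpr hk2
    have hmem : (t + k).natAbs ∈ (Icc 1 (2 * T)).filter Q :=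
      mem_filter.mpr ⟨mem_Icc.mpr ⟨e4, e3⟩, hk3⟩
    rcases abs_cases (t + k) with ⟨h, _⟩ | ⟨h, _⟩
    · apply mem_union_left
      refine mem_image.mpr ⟨_, hmem, ?_⟩
      rw [e1, h]; ring
    · apply mem_union_right
      refine mem_image.mpr ⟨_, hmem, ?_⟩
      rw [e1, h]; ring
  refine (card_le_card h1).trans ((card_union_le _ _).trans ?_)
  have h2 := card_image_le (s := (Icc 1 (2 * T)).filter Q) (f := fun m : ℕ => (m : ℤ) - t)
  have h3 := card_image_le (s := (Icc 1 (2 * T)).filter Q) (f := fun m : ℕ => -(m : ℤ) - t)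
  omega

/-- number of primes -/
theorem primes_le {l : ℝ} {T : ℕ} (hl : 10 ≤ l) (hT : Real.exp l ≤ T) :
    (((Icc 1 (2 * T)).filter Nat.Prime).card : ℝ) ≤ 7 * (T / l) := by
  have hl0 : 0 < l := by linarith
  have hT0 : (0 : ℝ) < T := (Real.exp_pos _).trans_le hT
  have hT1 : l ≤ Real.log T := by rwa [Real.le_log_iff_exp_le hT0]
  have h1 := Chebyshev.pi_le_log4_mul_div (x := ((2 * T : ℕ) : ℝ)) (by
    push_cast
    have := Real.add_one_le_exp l
    linarith)
  rw [Nat.floor_natCast] at h1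
  have h2 : ((Icc 1 (2 * T)).filter Nat.Prime).card = Nat.primeCounting (2 * T) := by
    rw [Nat.primeCounting, Nat.primeCounting', Nat.count_eq_card_filter_range]
    congr 1
    ext p
    rw [mem_filter, mem_filter, mem_Icc, mem_range]
    constructor
    · rintro ⟨⟨a, b⟩, c⟩; exact ⟨by omega, c⟩
    · rintro ⟨a, c⟩; exact ⟨⟨c.one_lt.le, by omega⟩, c⟩
  rw [h2]
  refine h1.trans ?_
  push_cast
  have h3 : Real.log (√(2 * (T : ℝ))) = Real.log (2 * T) / 2 := by
    rw [Real.log_sqrt (by positivity)]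
  have h4 : l ≤ Real.log (2 * T) := hT1.trans (Real.log_le_log hT0 (by linarith))
  have h5 : Real.log 4 = 2 * Real.log 2 := by
    rw [show (4 : ℝ) = 2 ^ 2 by norm_num, Real.log_pow]; norm_num
  have h6 := Real.log_two_lt_d9
  have h7 := Real.log_two_gt_d9
  have e1 : Real.log 4 * (2 * (T : ℝ)) / Real.log (√(2 * (T : ℝ))) ≤ 6 * (T / l) := by
    rw [h3, h5, div_le_iff₀ (by linarith)]
    have : 6 * ((T : ℝ) / l) * (Real.log (2 * T) / 2) = 3 * T * (Real.log (2 * T) / l) := by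
      ring
    rw [this]
    have h8 : 1 ≤ Real.log (2 * T) / l := by rw [le_div_iff₀ hl0]; linarith
    nlinarith
  have e2 : √(2 * (T : ℝ)) ≤ T / l := by
    rw [Real.sqrt_le_left (by positivity), div_pow, le_div_iff₀ (by positivity)]
    have h8 : 2 * l ^ 2 ≤ T := by
      have := Real.sum_le_exp_of_nonneg hl0.le 4
      simp only [sum_range_succ, range_zero, sum_empty] at this
      norm_num [Nat.factorial] at this
      nlinarith
    nlinarith
  linarith

/-- number of smooth integers -/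
theorem smooth_le : ∃ x₀ : ℝ, ∀ x : ℝ, x₀ ≤ x → ∀ T : ℕ, x ≤ T →
    (((Icc 1 (2 * T)).filter (fun m => ∀ p : ℕ, p.Prime → p ∣ m →
      (p : ℝ) ≤ Pool.Agent.H426R3.SQ.zR x)).card : ℝ) ≤ 2 * T / (Real.log x) ^ 3 := by
  obtain ⟨x₀, h⟩ := Pool.Agent.H398R2.RK.smooth_count
  refine ⟨x₀, fun x hx T hT => ?_⟩
  have h1 := h x hx (2 * T) (by push_cast; linarith [Nat.cast_nonneg (α := ℝ) T])
  push_cast at h1
  refine le_trans ?_ h1
  have hsub : (Icc 1 (2 * T)).filter (fun m => ∀ p : ℕ, p.Prime → p ∣ m →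
      (p : ℝ) ≤ Pool.Agent.H426R3.SQ.zR x) ⊆ (Icc 1 (2 * T)).filter (fun m => ∀ p : ℕ,
      p.Prime → p ∣ m → Real.log p ≤ Real.log x * Real.log (Real.log (Real.log x)) /
        (10 * Real.log (Real.log x))) := by
    intro m hm
    rw [mem_filter] at hm ⊢
    refine ⟨hm.1, fun p hp hpm => ?_⟩
    have h1 := hm.2 p hp hpm
    unfold Pool.Agent.H426R3.SQ.zR at h1
    rwa [← Real.log_le_iff_le_exp (by exact_mod_cast hp.pos)] at h1
  exact_mod_cast card_le_card hsub

end Pool.Agent.TH621.RP
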