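import Mathlib

set_option autoImplicit false

/-! # Vandermonde divisibility and window counts -/

namespace Pool.Agent.TH621.RP

open Finset Polynomial

theorem vdm_dvd (g : ℤ[X]) (v : Fin (g.natDegree + 1) → ℤ) (m : ℤ)
    (h : ∀ i, m ∣ g.eval (v i)) :
    m ∣ (∏ i, ∏ j ∈ Ioi i, (v j - v i)) * g.leadingCoeff := by
  set A := Matrix.vandermonde v with hA
  set c : Fin (g.natDegree + 1) → ℤ := fun j => g.coeff j with hc
  have h1 : ∀ i, (A.mulVec c) i = g.eval (v i) := by
    intro i
    rw [Polynomial.eval_eq_sum_range, ← Fin.sum_univ_eq_sum_range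
      (fun j => g.coeff j * (v i) ^ j)]
    simp only [Matrix.mulVec, dotProduct, hA, Matrix.vandermonde_apply, hc]
    exact sum_congr rfl fun j _ => mul_comm _ _
  have h2 : (A.adjugate).mulVec (A.mulVec c) = A.det • c := by
    rw [Matrix.mulVec_mulVec, Matrix.adjugate_mul, Matrix.smul_mulVec, Matrix.one_mulVec]
  have h3 := congrFun h2 (Fin.last g.natDegree)
  simp only [Pi.smul_apply, smul_eq_mul, hc, Fin.val_last] at h3
  rw [← Matrix.det_vandermonde, ← hA]
  rw [Polynomial.leadingCoeff, ← h3]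
  simp only [Matrix.mulVec, dotProduct]
  refine Finset.dvd_sum fun i _ => ?_
  have h4 := h1 i
  simp only [Matrix.mulVec, dotProduct, hc] at h4
  rw [h4]
  exact Dvd.dvd.mul_left (h i) _

/-- sets with few elements in each window -/
theorem window (S : Finset ℕ) (N H w d : ℕ) (hw : 0 < w) (hS : S ⊆ Ioc N (N + H))
    (h : ∀ B : Finset ℕ, B ⊆ S → (∀ x ∈ B, ∀ y ∈ B, x < y + w) → B.card ≤ d) :
    S.card ≤ d * (H / w + 1) := by
  have h1 := Finset.card_le_mul_card_image (f := fun n => (n - N) / w) S d (by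
    intro a ha
    apply h _ (filter_subset _ _)
    intro x hx y hy
    rw [mem_filter] at hx hy
    have hx1 := mem_Ioc.mp (hS hx.1)
    have hy1 := mem_Ioc.mp (hS hy.1)
    have e1 := hx.2
    have e2 := hy.2
    have e3 : x - N < w * ((x - N) / w + 1) := Nat.lt_mul_div_succ _ hw
    have e4 : w * ((y - N) / w) ≤ y - N := Nat.mul_div_le _ _
    rw [e1, mul_add, mul_one] at e3
    rw [e2] at e4
    omega)
  refine h1.trans (Nat.mul_le_mul_left _ ?_)
  have h2 : S.image (fun n => (n - N) / w) ⊆ range (H / w + 1) := by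
    intro a ha
    obtain ⟨n, hn, rfl⟩ := mem_image.mp ha
    rw [mem_range]
    have := mem_Ioc.mp (hS hn)
    have : (n - N) / w ≤ H / w := Nat.div_le_div_right (by omega)
    omega
  have := card_le_card h2
  rwa [card_range] at this

/-- at most `d` solutions of `m ∣ g(n)` in a window -/
theorem vdm_window (g : ℤ[X]) (B : Finset ℕ) (m : ℤ) (hB : ∀ n ∈ B, m ∣ g.eval (n : ℤ))
    (hm : ∀ v : Fin (g.natDegree + 1) → ℕ, Function.Injective v → (∀ i, v i ∈ B) →
      ¬ m ∣ (∏ i, ∏ j ∈ Ioi i, ((v j : ℤ) - v i)) * g.leadingCoeff) : B.card ≤ g.natDegree := by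
  by_contra hcon
  push Not at hcon
  obtain ⟨e⟩ : Nonempty (Fin (g.natDegree + 1) ↪ B) := by
    rw [Function.Embedding.nonempty_iff_card_le]
    simp only [Fintype.card_fin, Fintype.card_coe]
    omega
  refine hm (fun i => (e i : ℕ)) (fun i j hij => e.injective (Subtype.ext hij))
    (fun i => (e i).2) ?_
  exact vdm_dvd g (fun i => ((e i : ℕ) : ℤ)) m (fun i => hB _ (e i).2)

/-- size of the Vandermonde product -/
theorem vdm_size {d w : ℕ} (v : Fin (d + 1) → ℕ) (hv : Function.Injective v)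
    (hw : ∀ i j, v i < v j + w) :
    (∏ i, ∏ j ∈ Ioi i, ((v j : ℤ) - v i)) ≠ 0 ∧
      |∏ i, ∏ j ∈ Ioi i, ((v j : ℤ) - v i)| ≤ (w : ℤ) ^ ((d + 1) ^ 2) := by
  have hw1 : (1 : ℤ) ≤ w := by
    have := hw 0 0
    omega
  constructor
  · refine prod_ne_zero_iff.mpr fun i _ => prod_ne_zero_iff.mpr fun j hj => ?_
    have hij : i < j := by simpa using hj
    intro h0
    have : v j = v i := by omega
    exact absurd (hv this) (by intro h; subst h; exact lt_irrefl _ hij)
  · rw [abs_prod]
    have h1 : ∀ i : Fin (d + 1), |∏ j ∈ Ioi i, ((v j : ℤ) - v i)| ≤ (w : ℤ) ^ (d + 1) := by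
      intro i
      rw [abs_prod]
      calc ∏ j ∈ Ioi i, |((v j : ℤ) - v i)| ≤ ∏ j ∈ Ioi i, (w : ℤ) := by
            apply prod_le_prod (fun _ _ => abs_nonneg _)
            intro j _
            have a1 := hw i j
            have a2 := hw j i
            rw [abs_le]
            constructor <;> omega
        _ = (w : ℤ) ^ (Ioi i).card := by rw [prod_const]
        _ ≤ (w : ℤ) ^ (d + 1) := by
            apply pow_le_pow_right₀ hw1
            calc (Ioi i).card ≤ (univ : Finset (Fin (d + 1))).card := card_le_card (subset_univ _)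
              _ = d + 1 := by simp
    calc ∏ i, |∏ j ∈ Ioi i, ((v j : ℤ) - v i)| ≤ ∏ _i : Fin (d + 1), (w : ℤ) ^ (d + 1) :=
          prod_le_prod (fun _ _ => abs_nonneg _) fun i _ => h1 i
      _ = (w : ℤ) ^ ((d + 1) ^ 2) := by
          rw [prod_const, card_univ, Fintype.card_fin, ← pow_mul, sq]

/-- count for a large modulus -/
theorem count_big (g : ℤ[X]) (hg : 1 ≤ g.natDegree) (N H w m A : ℕ) (hw : 0 < w)
    (hA : |g.leadingCoeff| ≤ A) (hm : A * w ^ ((g.natDegree + 1) ^ 2) < m) :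
    ((Ioc N (N + H)).filter (fun n : ℕ => (m : ℤ) ∣ g.eval (n : ℤ))).card ≤
      g.natDegree * (H / w + 1) := by
  apply window _ N H w _ hw (filter_subset _ _)
  intro B hB hBw
  apply vdm_window g B m (fun n hn => (mem_filter.mp (hB hn)).2)
  intro v hv hvB hdvd
  obtain ⟨h1, h2⟩ := vdm_size v hv (fun i j => hBw _ (hvB i) _ (hvB j))
  have h3 : g.leadingCoeff ≠ 0 := by
    rw [Ne, Polynomial.leadingCoeff_eq_zero]
    rintro rfl
    simp at hg
  have h4 := Int.le_of_dvd (abs_pos.mpr (mul_ne_zero h1 h3)) ((dvd_abs _ _).mpr hdvd)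
  rw [abs_mul] at h4
  have h5 : |∏ i, ∏ j ∈ Ioi i, ((v j : ℤ) - v i)| * |g.leadingCoeff| ≤
      (w : ℤ) ^ ((g.natDegree + 1) ^ 2) * A := by
    apply mul_le_mul h2 hA (abs_nonneg _) (by positivity)
  have h6 : ((A * w ^ ((g.natDegree + 1) ^ 2) : ℕ) : ℤ) < m := by exact_mod_cast hm
  push_cast at h6
  linarith

/-- count for a prime -/
theorem count_prime (g : ℤ[X]) (hg : 1 ≤ g.natDegree) (N H p E : ℕ) (hp : p.Prime)
    (hA : |g.leadingCoeff| ≤ E) (hE : g.natDegree ≤ E) :
    ((Ioc N (N + H)).filter (fun n : ℕ => (p : ℤ) ∣ g.eval (n : ℤ))).card ≤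
      E * (H / p + 1) := by
  have hp0 := hp.pos
  have h3 : g.leadingCoeff ≠ 0 := by
    rw [Ne, Polynomial.leadingCoeff_eq_zero]
    rintro rfl
    simp at hg
  by_cases hpa : (p : ℤ) ∣ g.leadingCoeff
  · have h4 := Int.le_of_dvd (abs_pos.mpr h3) ((dvd_abs _ _).mpr hpa)
    have h5 : p ≤ E := by exact_mod_cast h4.trans hA
    calc ((Ioc N (N + H)).filter (fun n : ℕ => (p : ℤ) ∣ g.eval (n : ℤ))).card
        ≤ (Ioc N (N + H)).card := card_le_card (filter_subset _ _)
      _ = H := by simp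
      _ ≤ p * (H / p + 1) := by
          have := Nat.lt_mul_div_succ H hp0
          exact this.le
      _ ≤ E * (H / p + 1) := Nat.mul_le_mul_right _ h5
  · refine le_trans ?_ (Nat.mul_le_mul_right _ hE)
    apply window _ N H p _ hp0 (filter_subset _ _)
    intro B hB hBw
    apply vdm_window g B p (fun n hn => (mem_filter.mp (hB hn)).2)
    intro v hv hvB hdvd
    have hpp : Prime (p : ℤ) := Nat.prime_iff_prime_int.mp hp
    rcases hpp.dvd_or_dvd hdvd with h | h
    · rw [hpp.dvd_finsetProd_iff] at h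
      obtain ⟨i, -, h⟩ := h
      rw [hpp.dvd_finsetProd_iff] at h
      obtain ⟨j, hj, h⟩ := h
      have hij : i < j := by simpa using hj
      have e1 := hBw _ (hvB i) _ (hvB j)
      have e2 := hBw _ (hvB j) _ (hvB i)
      have e3 : (v j : ℤ) - v i = 0 := by
        apply Int.eq_zero_of_abs_lt_dvd h
        rw [abs_lt]
        constructor <;> omega
      have : v j = v i := by omega
      exact absurd (hv this) (by intro h; subst h; exact lt_irrefl _ hij)
    · exact hpa h

end Pool.Agent.TH621.RP
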